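import Pool.Agent.Helper74.NH.Core

set_option autoImplicit false

/-! Computability of the construction. -/

namespace Pool.Agent.Helper74.NH

section general

variable {β : Type} [Primcodable β]

lemma comp_bEx {p : β → ℕ → Bool} (hp : Computable₂ p) {n : β → ℕ} (hn : Computable n) :
    Computable (fun b => bEx (p b) (n b)) := by
  have hstep : Computable₂ (fun (b : β) (z : ℕ × Bool) => z.2 || p b z.1) := by
    have h1 : Computable (fun w : β × (ℕ × Bool) => w.2.2) := Computable.snd.comp Computable.snd
    have h2 : Computable (fun w : β × (ℕ × Bool) => p w.1 w.2.1) :=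
      hp.comp Computable.fst (Computable.fst.comp Computable.snd)
    exact (Primrec.or.to_comp : Computable₂ or).comp h1 h2
  refine (Computable.nat_rec hn (Computable.const false) hstep).of_eq fun b => ?_
  generalize n b = m
  induction m with
  | zero => rfl
  | succ m ih =>
    rw [bEx, ← ih]

lemma comp_bf {γ : Type} [Primcodable γ] {f : β → ℕ → Option γ} (hf : Computable₂ f) {n : β → ℕ}
    (hn : Computable n) : Computable (fun b => bf (f b) (n b)) := by
  have hstep : Computable₂ (fun (b : β) (z : ℕ × Option γ) => (z.2 <|> f b z.1)) := by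
    have h1 : Computable (fun w : β × (ℕ × Option γ) => w.2.2) := Computable.snd.comp Computable.snd
    have h2 : Computable (fun w : β × (ℕ × Option γ) => f w.1 w.2.1) :=
      hf.comp Computable.fst (Computable.fst.comp Computable.snd)
    exact (Primrec.option_orElse.to_comp : Computable₂ ((· <|> ·) : Option γ → Option γ → Option γ)).comp
      h1 h2
  refine (Computable.nat_rec hn (Computable.const none) hstep).of_eq fun b => ?_
  generalize n b = m
  induction m with
  | zero => rfl
  | succ m ih =>
    rw [bf, ← ih]

lemma comp_find {p : β → ℕ → Bool} (hp : Computable₂ p) (hex : ∀ b, ∃ n, p b n = true) :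
    Computable (fun b => Nat.find (hex b)) := by
  have h : Partrec (fun b => Nat.rfind (fun n => Part.some (p b n))) := Partrec.rfind hp.partrec₂
  refine h.of_eq_tot fun b => Nat.mem_rfind.2 ⟨?_, fun {m} hm => ?_⟩
  · exact Part.mem_some_iff.2 (Nat.find_spec (hex b)).symm
  · have := Nat.find_min (hex b) hm
    exact Part.mem_some_iff.2 (by simpa using this)

lemma comp_ite {γ : Type} [Primcodable γ] {c : β → Bool} {f g : β → γ} (hc : Computable c)
    (hf : Computable f) (hg : Computable g) {P : β → Prop} [DecidablePred P]
    (hP : ∀ b, P b ↔ c b = true) : Computable (fun b => if P b then f b else g b) := by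
  refine (Computable.cond hc hf hg).of_eq fun b => ?_
  by_cases h : P b
  · rw [if_pos h, (hP b).1 h]; rfl
  · rw [if_neg h]
    have : c b = false := by
      cases hcb : c b
      · rfl
      · exact absurd ((hP b).2 hcb) h
    rw [this]; rfl

lemma comp_and {c d : β → Bool} (hc : Computable c) (hd : Computable d) :
    Computable (fun b => c b && d b) := (Primrec.and.to_comp : Computable₂ and).comp hc hd

lemma comp_or {c d : β → Bool} (hc : Computable c) (hd : Computable d) :
    Computable (fun b => c b || d b) := (Primrec.or.to_comp : Computable₂ or).comp hc hd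

lemma comp_not {c : β → Bool} (hc : Computable c) :
    Computable (fun b => !(c b)) := (Primrec.not.to_comp).comp hc

lemma comp_lt {m n : β → ℕ} (hm : Computable m) (hn : Computable n) :
    Computable (fun b => decide (m b < n b)) :=
  (Primrec.nat_lt.decide.to_comp : Computable₂ (fun a b : ℕ => decide (a < b))).comp hm hn

lemma comp_le {m n : β → ℕ} (hm : Computable m) (hn : Computable n) :
    Computable (fun b => decide (m b ≤ n b)) :=
  (Primrec.nat_le.decide.to_comp : Computable₂ (fun a b : ℕ => decide (a ≤ b))).comp hm hn

lemma comp_eq {γ : Type} [Primcodable γ] [DecidableEq γ] {m n : β → γ} (hm : Computable m)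
    (hn : Computable n) : Computable (fun b => decide (m b = n b)) :=
  (Primrec.eq.decide.to_comp : Computable₂ (fun a b : γ => decide (a = b))).comp hm hn

lemma comp_add {m n : β → ℕ} (hm : Computable m) (hn : Computable n) :
    Computable (fun b => m b + n b) := (Primrec.nat_add.to_comp).comp hm hn

lemma comp_npair {m n : β → ℕ} (hm : Computable m) (hn : Computable n) :
    Computable (fun b => Nat.pair (m b) (n b)) := (Primrec₂.natPair.to_comp).comp hm hn

/-- change of context -/
lemma comp_ctx {γ δ : Type} [Primcodable γ] [Primcodable δ] {f : β → γ} (hf : Computable f) :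
    Computable (fun p : β × δ => f p.1) := hf.comp Computable.fst

lemma comp_ctx₂ {γ δ ε : Type} [Primcodable γ] [Primcodable δ] [Primcodable ε] {f : β → γ → ε}
    (hf : Computable₂ f) : Computable₂ (fun (p : β × δ) (c : γ) => f p.1 c) := by
  exact hf.comp (Computable.fst.comp Computable.fst) Computable.snd

end general

section con

variable {β : Type} [Primcodable β]
variable {q : Str → ℕ → Option (Option ℕ)} (hq : Computable₂ q)

include hq in
lemma comp_wr {fA : β → ℕ → ℕ} (hA : Computable₂ fA) {σ : β → Str} {i x T : β → ℕ}
    (hσ : Computable σ) (hi : Computable i) (hx : Computable x) (hT : Computable T) :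
    Computable (fun b => wr q (fA b) (σ b) (i b) (x b) (T b)) := by
  have h1 : Computable (fun b => q (σ b) (Nat.pair (i b) (Nat.pair (x b) (T b)))) :=
    hq.comp hσ (comp_npair hi (comp_npair hx hT))
  have h2 : Computable₂ (fun (b : β) (o : Option ℕ) =>
      (Option.casesOn o false (fun v => !decide (v = fA b (x b))) : Bool)) := by
    have h3 : Computable (fun p : β × Option ℕ => p.2) := Computable.snd
    have h4 : Computable₂ (fun (p : β × Option ℕ) (v : ℕ) => !decide (v = fA p.1 (x p.1))) := by
      refine comp_not (comp_eq Computable.snd ?_)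
      exact hA.comp (Computable.fst.comp Computable.fst)
        (hx.comp (Computable.fst.comp Computable.fst))
    exact Computable.option_casesOn h3 (Computable.const false) h4
  refine (Computable.option_casesOn h1 (Computable.const false) h2).of_eq fun b => ?_
  unfold wr
  rcases q (σ b) (Nat.pair (i b) (Nat.pair (x b) (T b))) with _ | _ | v
  · rfl
  · rfl
  · simp only [bne, BEq.beq]

include hq in
lemma comp_bad {fA : β → ℕ → ℕ} (hA : Computable₂ fA) {i N : β → ℕ} {σ : β → Str}
    (hi : Computable i) (hN : Computable N) (hσ : Computable σ) :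
    Computable (fun b => bad q (fA b) (i b) (N b) (σ b)) := by
  unfold bad
  refine comp_bEx ?_ hN
  refine comp_bEx (β := β × ℕ) (p := fun p T => wr q (fA p.1) (σ p.1) (i p.1) p.2 T) ?_
    (hN.comp Computable.fst)
  have h := comp_wr (β := (β × ℕ) × ℕ) hq (fA := fun p => fA p.1.1) (σ := fun p => σ p.1.1)
    (i := fun p => i p.1.1) (x := fun p => p.1.2) (T := fun p => p.2)
    (hA.comp (Computable.fst.comp (Computable.fst.comp Computable.fst)) Computable.snd)
    (hσ.comp (Computable.fst.comp Computable.fst))
    (hi.comp (Computable.fst.comp Computable.fst))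
    (Computable.snd.comp Computable.fst) Computable.snd
  exact h

lemma primrec_cand : Primrec₂ cand := by
  have h1 : Primrec (fun p : Str × ℕ => (Encodable.decode p.2 : Option Str)) :=
    Primrec.decode.comp Primrec.snd
  have h2 : Primrec₂ (fun (p : Str × ℕ) (σ : Str) =>
      if σ.take p.1.length = p.1 then σ else p.1) := by
    refine Primrec.ite ?_ Primrec.snd (Primrec.fst.comp Primrec.fst)
    exact Primrec.eq.comp (Primrec.list_take.comp (Primrec.list_length.comp
      (Primrec.fst.comp Primrec.fst)) Primrec.snd) (Primrec.fst.comp Primrec.fst)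
  refine (Primrec.option_casesOn h1 Primrec.fst h2).of_eq fun p => ?_
  unfold cand
  cases (Encodable.decode p.2 : Option Str) <;> rfl

include hq in
lemma comp_kfind {fA : β → ℕ → ℕ} (hA : Computable₂ fA) {i N : β → ℕ} {w : β → Str}
    (hi : Computable i) (hN : Computable N) (hw : Computable w) :
    Computable (fun b => kfind q (fA b) (i b) (N b) (w b)) := by
  unfold kfind
  refine comp_bf ?_ hN
  have hc : Computable (fun p : β × ℕ => cand (w p.1) p.2) :=
    primrec_cand.to_comp.comp (hw.comp Computable.fst) Computable.snd
  have hb : Computable (fun p : β × ℕ => bad q (fA p.1) (i p.1) (N p.1) (cand (w p.1) p.2)) :=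
    comp_bad hq (comp_ctx₂ hA) (comp_ctx hi) (comp_ctx hN) hc
  exact comp_ite hb (Computable.option_some.comp hc) (Computable.const none) fun b => Iff.rfl

lemma comp_lv {w : β → Wd} {j : β → ℕ} (hw : Computable w) (hj : Computable j) :
    Computable (fun b => lv (w b) (j b)) := by
  have h : Computable (fun b => ((w b).1[j b]?).getD (w b).2) :=
    Computable.option_getD (Computable.list_getElem?.comp (Computable.fst.comp hw) hj)
      (Computable.snd.comp hw)
  refine h.of_eq fun b => ?_
  rw [lv, List.getD_eq_getElem?_getD]

lemma comp_tN {s : β → St} (hs : Computable s) : Computable (fun b => tN (s b)) :=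
  Computable.fst.comp (Computable.fst.comp hs)
lemma comp_tE {s : β → St} (hs : Computable s) : Computable (fun b => tE (s b)) :=
  Computable.fst.comp (Computable.snd.comp (Computable.fst.comp hs))
lemma comp_tI {s : β → St} (hs : Computable s) : Computable (fun b => tI (s b)) :=
  Computable.snd.comp (Computable.snd.comp (Computable.fst.comp hs))
lemma comp_tW {s : β → St} (hs : Computable s) : Computable (fun b => tW (s b)) :=
  Computable.fst.comp (Computable.snd.comp hs)
lemma comp_tP {s : β → St} (hs : Computable s) : Computable (fun b => tP (s b)) :=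
  Computable.snd.comp (Computable.snd.comp hs)

include hq in
lemma comp_kact {fA : β → ℕ → ℕ} (hA : Computable₂ fA) {s : β → St} {i : β → ℕ}
    (hs : Computable s) (hi : Computable i) :
    Computable (fun b => kact q (fA b) (s b) (i b)) := by
  have h1 : Computable (fun b => (decide (tI (s b) = 0) || decide (i b + 1 < tI (s b))) &&
      !(bad q (fA b) (i b) (tN (s b)) (lv (tW (s b)) (i b + 1)))) :=
    comp_and (comp_or (comp_eq (comp_tI hs) (Computable.const 0))
      (comp_lt (Computable.succ.comp hi) (comp_tI hs)))
      (comp_not (comp_bad hq hA hi (comp_tN hs) (comp_lv (comp_tW hs) (Computable.succ.comp hi))))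
  have h2 : Computable (fun b => kfind q (fA b) (i b) (tN (s b)) (lv (tP (s b)) (i b + 1))) :=
    comp_kfind hq hA hi (comp_tN hs) (comp_lv (comp_tP hs) (Computable.succ.comp hi))
  refine comp_ite h1 h2 (Computable.const none) fun b => ?_
  simp

lemma comp_bit {u : β → Str} {y : β → ℕ} (hu : Computable u) (hy : Computable y) :
    Computable (fun b => bit (u b) (y b)) := by
  have h : Primrec₂ (fun (u : Str) (y : ℕ) => bit u y) := by
    unfold bit
    exact Primrec.cond (Primrec.list_getD false) (Primrec.const 1) (Primrec.const 0)
  exact h.to_comp.comp hu hy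

lemma comp_canc {fF : β → ℕ → ℕ → Option ℕ}
    (hF : Computable (fun p : β × (ℕ × ℕ) => fF p.1 p.2.1 p.2.2)) {i : β → ℕ} {u : β → Str}
    (hi : Computable i) (hu : Computable u) : Computable (fun b => canc (fF b) (i b) (u b)) := by
  unfold canc
  refine comp_bEx ?_ (Computable.list_length.comp hu)
  have h1 : Computable (fun p : β × ℕ => fF p.1 (i p.1) p.2) :=
    hF.comp (Computable.fst.pair ((hi.comp Computable.fst).pair Computable.snd))
  have h2 : Computable₂ (fun (p : β × ℕ) (v : ℕ) => !decide (v = bit (u p.1) p.2)) := by
    refine comp_not (comp_eq Computable.snd ?_)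
    exact comp_bit (hu.comp (Computable.fst.comp Computable.fst)) (Computable.snd.comp Computable.fst)
  refine (Computable.option_casesOn h1 (Computable.const false) h2).of_eq fun p => ?_
  change _ = (match fF p.1 (i p.1) p.2 with | some v => v != bit (u p.1) p.2 | none => false)
  rcases fF p.1 (i p.1) p.2 with _ | v
  · rfl
  · simp only [bne, BEq.beq]

lemma comp_take {n : β → ℕ} {u : β → Str} (hn : Computable n) (hu : Computable u) :
    Computable (fun b => (u b).take (n b)) := (Primrec.list_take.to_comp).comp hn hu

lemma comp_dact {fF : β → ℕ → ℕ → Option ℕ}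
    (hF : Computable (fun p : β × (ℕ × ℕ) => fF p.1 p.2.1 p.2.2)) {s : β → St} {i : β → ℕ}
    (hs : Computable s) (hi : Computable i) : Computable (fun b => dact (fF b) (s b) (i b)) := by
  unfold dact
  have hu : Computable (fun b => lv (tW (s b)) (i b + 1)) :=
    comp_lv (comp_tW hs) (Computable.succ.comp hi)
  have hu' : Computable (fun b => lv (tW (s b)) (i b + 2)) :=
    comp_lv (comp_tW hs) (Computable.succ.comp (Computable.succ.comp hi))
  refine comp_ite (comp_canc hF hi hu) (Computable.const none) ?_ fun b => Iff.rfl
  refine comp_bf ?_ (Computable.list_length.comp hu')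
  have hbit : Computable (fun p : β × ℕ => bit (lv (tW (s p.1)) (i p.1 + 2)) p.2) :=
    comp_bit (comp_ctx hu') Computable.snd
  have hFi : Computable (fun p : β × ℕ => fF p.1 (i p.1) p.2) :=
    hF.comp (Computable.fst.pair ((hi.comp Computable.fst).pair Computable.snd))
  have hc : Computable (fun p : β × ℕ =>
      decide ((lv (tW (s p.1)) (i p.1 + 1)).length ≤ p.2) &&
      decide (fF p.1 (i p.1) p.2 = some (bit (lv (tW (s p.1)) (i p.1 + 2)) p.2))) :=
    comp_and (comp_le (Computable.list_length.comp (comp_ctx hu)) Computable.snd)
      (comp_eq hFi (Computable.option_some.comp hbit))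
  have hflip : Computable (fun p : β × ℕ =>
      !((lv (tW (s p.1)) (i p.1 + 2)).getD p.2 false)) := by
    refine comp_not ?_
    exact (Primrec.list_getD false).to_comp.comp (comp_ctx hu') Computable.snd
  have hstr : Computable (fun p : β × ℕ => some ((lv (tW (s p.1)) (i p.1 + 2)).take p.2 ++
      [!((lv (tW (s p.1)) (i p.1 + 2)).getD p.2 false)])) := by
    refine Computable.option_some.comp ?_
    exact Computable.list_concat.comp (comp_take Computable.snd (comp_ctx hu')) hflip
  refine comp_ite hc hstr (Computable.const none) fun p => ?_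
  simp

lemma comp_replicate {n : β → ℕ} (hn : Computable n) :
    Computable (fun b => List.replicate (n b) false) := by
  have h : Primrec (fun n : ℕ => List.replicate n false) := by
    refine (Primrec.list_map Primrec.list_range (Primrec₂.const false)).of_eq fun n => ?_
    simp
  exact h.to_comp.comp hn

lemma comp_gact {s : β → St} {i : β → ℕ} (hs : Computable s) (hi : Computable i) :
    Computable (fun b => gact (s b) (i b)) := by
  unfold gact
  have hu : Computable (fun b => lv (tW (s b)) (i b + 1)) :=
    comp_lv (comp_tW hs) (Computable.succ.comp hi)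
  refine comp_ite (comp_le (Computable.list_length.comp hu) hi)
    (Computable.option_some.comp ?_) (Computable.const none) fun b => ?_
  · exact Computable.list_append.comp hu (comp_replicate (Computable.succ.comp hi))
  · simp

include hq in
lemma comp_act {fA : β → ℕ → ℕ} (hA : Computable₂ fA) {fF : β → ℕ → ℕ → Option ℕ}
    (hF : Computable (fun p : β × (ℕ × ℕ) => fF p.1 p.2.1 p.2.2)) {s : β → St} {i : β → ℕ}
    (hs : Computable s) (hi : Computable i) :
    Computable (fun b => act q (fA b) (fF b) (s b) (i b)) := by
  unfold act
  have ho : Computable₂ ((· <|> ·) : Option Str → Option Str → Option Str) :=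
    Primrec.option_orElse.to_comp
  exact ho.comp (comp_kact hq hA hs hi) (ho.comp (comp_dact hF hs hi) (comp_gact hs hi))

lemma comp_levels {w : β → Wd} (hw : Computable w) {n : β → ℕ} (hn : Computable n) (c : ℕ) :
    Computable (fun b => (List.range (n b)).map (fun l => lv (w b) (l + c))) := by
  have h : Primrec₂ (fun (w : Wd) (n : ℕ) => (List.range n).map (fun l => lv w (l + c))) := by
    refine Primrec.list_map (Primrec.list_range.comp Primrec.snd) ?_
    have h1 : Primrec (fun p : (Wd × ℕ) × ℕ => ((p.1.1.1)[p.2 + c]?).getD p.1.1.2) :=
      Primrec.option_getD.comp (Primrec.list_getElem?.comp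
        (Primrec.fst.comp (Primrec.fst.comp Primrec.fst))
        (Primrec.nat_add.comp Primrec.snd (Primrec.const c)))
        (Primrec.snd.comp (Primrec.fst.comp Primrec.fst))
    refine h1.of_eq fun p => ?_
    change _ = lv p.1.1 (p.2 + c)
    rw [lv, List.getD_eq_getElem?_getD]
  exact h.to_comp.comp hw hn

include hq in
lemma comp_bstep {fA : β → ℕ → ℕ} (hA : Computable₂ fA) {fF : β → ℕ → ℕ → Option ℕ}
    (hF : Computable (fun p : β × (ℕ × ℕ) => fF p.1 p.2.1 p.2.2)) {M : β → ℕ} {s : β → St}
    (hM : Computable M) (hs : Computable s) :
    Computable (fun b => bstep q (fA b) (fF b) (M b) (s b)) := by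
  have h1 : Computable (fun b => bf (fun i => (act q (fA b) (fF b) (s b) i).map
      (fun σ => (i, σ))) (tE (s b))) := by
    refine comp_bf ?_ (comp_tE hs)
    have h2 : Computable (fun p : β × ℕ => act q (fA p.1) (fF p.1) (s p.1) p.2) := by
      refine comp_act hq (comp_ctx₂ hA) ?_ (comp_ctx hs) Computable.snd
      exact hF.comp ((Computable.fst.comp Computable.fst).pair Computable.snd)
    refine Computable.option_map h2 ?_
    exact (Computable.snd.comp Computable.fst).pair Computable.snd
  have hnone : Computable (fun b => ((M b, tE (s b) + 1, 0),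
      (((List.range (tE (s b) + 1)).map (fun l => lv (tW (s b)) (l+1)), (tW (s b)).2), tW (s b)))) := by
    refine (hM.pair ((Computable.succ.comp (comp_tE hs)).pair (Computable.const 0))).pair ?_
    refine Computable.pair (Computable.pair ?_ (Computable.snd.comp (comp_tW hs))) (comp_tW hs)
    exact comp_levels (comp_tW hs) (Computable.succ.comp (comp_tE hs)) 1
  have hsome : Computable₂ (fun (b : β) (p : ℕ × Str) => ((M b, tE (s b), p.1 + 1),
      (((List.range (p.1+1)).map (fun l => lv (tW (s b)) (l + 0)), p.2), tW (s b)))) := by
    refine ((hM.comp Computable.fst).pair (((comp_tE hs).comp Computable.fst).pair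
      (Computable.succ.comp (Computable.fst.comp Computable.snd)))).pair ?_
    refine Computable.pair (Computable.pair ?_ (Computable.snd.comp Computable.snd))
      ((comp_tW hs).comp Computable.fst)
    exact comp_levels ((comp_tW hs).comp Computable.fst)
      (Computable.succ.comp (Computable.fst.comp Computable.snd)) 0
  refine (Computable.option_casesOn h1 hnone hsome).of_eq fun b => ?_
  unfold bstep
  cases bf (fun i => (act q (fA b) (fF b) (s b) i).map (fun σ => (i, σ))) (tE (s b)) <;> rfl

end con

end Pool.Agent.Helper74.NH
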