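import Mathlib

set_option autoImplicit false

/-! The combinatorial core of the priority construction. -/

namespace Pool.Agent.Helper74.NH

abbrev Str := List Bool

/-- the worlds of all levels: the first ones explicitly, then a default -/
abbrev Wd := List Str × Str

/-- the world of level `j` -/
def lv (w : Wd) (j : ℕ) : Str := w.1.getD j w.2

/-- states: `((N, e, ι), (W, Wp))`; `N` is the time when the state was created, the requirements
`< e` are active, `ι` is the level that acted last (`0` for none), `W` are the worlds and `Wp` the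
worlds of the preceding state -/
abbrev St := (ℕ × ℕ × ℕ) × (Wd × Wd)

abbrev tN (st : St) : ℕ := st.1.1
abbrev tE (st : St) : ℕ := st.1.2.1
abbrev tI (st : St) : ℕ := st.1.2.2
abbrev tW (st : St) : Wd := st.2.1
abbrev tP (st : St) : Wd := st.2.2

/-- bounded search -/
def bf {β : Type} (f : ℕ → Option β) : ℕ → Option β
  | 0 => none
  | n+1 => (bf f n) <|> (f n)

lemma bf_none {β : Type} {f : ℕ → Option β} {n : ℕ} : bf f n = none ↔ ∀ k < n, f k = none := by
  induction n with
  | zero => simp [bf]
  | succ n ih =>
    rw [bf]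
    constructor
    · intro h
      have h1 : bf f n = none ∧ f n = none := by
        cases h2 : bf f n with
        | none => rw [h2] at h; simpa using h
        | some b => rw [h2] at h; simp at h
      intro k hk
      rcases Nat.lt_succ_iff_lt_or_eq.1 hk with h3 | h3
      · exact ih.1 h1.1 k h3
      · rw [h3]; exact h1.2
    · intro h
      rw [ih.2 fun k hk => h k (by omega), h n (by omega)]
      rfl

lemma bf_some {β : Type} {f : ℕ → Option β} {n : ℕ} {b : β} (h : bf f n = some b) :
    ∃ k < n, f k = some b ∧ ∀ j < k, f j = none := by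
  induction n with
  | zero => simp [bf] at h
  | succ n ih =>
    rw [bf] at h
    cases h2 : bf f n with
    | none =>
      rw [h2] at h
      exact ⟨n, by omega, by simpa using h, bf_none.1 h2⟩
    | some c =>
      rw [h2] at h
      have hc : c = b := by simpa using h
      obtain ⟨k, hk, h3⟩ := ih (by rw [h2, hc])
      exact ⟨k, by omega, h3⟩

/-- bounded existential quantifier -/
def bEx (p : ℕ → Bool) : ℕ → Bool
  | 0 => false
  | n+1 => bEx p n || p n

lemma bEx_iff {p : ℕ → Bool} {n : ℕ} : bEx p n = true ↔ ∃ k < n, p k = true := by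
  induction n with
  | zero => simp [bEx]
  | succ n ih =>
    rw [bEx, Bool.or_eq_true, ih]
    constructor
    · rintro (⟨k, hk, h⟩ | h)
      · exact ⟨k, by omega, h⟩
      · exact ⟨n, by omega, h⟩
    · rintro ⟨k, hk, h⟩
      rcases Nat.lt_succ_iff_lt_or_eq.1 hk with h3 | h3
      · exact Or.inl ⟨k, h3, h⟩
      · exact Or.inr (h3 ▸ h)

section defs

variable (q : Str → ℕ → Option (Option ℕ)) (A : ℕ → ℕ) (F : ℕ → ℕ → Option ℕ)

/-- the string `σ` makes program `i` give a wrong answer at `x` within the budget `T` -/
def wr (σ : Str) (i x T : ℕ) : Bool :=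
  match q σ (Nat.pair i (Nat.pair x T)) with
  | some (some v) => v != A x
  | _ => false

/-- `σ` makes program `i` give a wrong answer, with bounds `N` on input and budget -/
def bad (i N : ℕ) (σ : Str) : Bool := bEx (fun x => bEx (fun T => wr q A σ i x T) N) N

/-- the candidate with number `k` for an extension of `w` -/
def cand (w : Str) (k : ℕ) : Str :=
  match (Encodable.decode k : Option Str) with
  | some σ => if σ.take w.length = w then σ else w
  | none => w

/-- search for an extension of `w` that makes `i` wrong -/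
def kfind (i N : ℕ) (w : Str) : Option Str :=
  bf (fun k => if bad q A i N (cand w k) then some (cand w k) else none) N

/-- make the program `i` wrong -/
def kact (st : St) (i : ℕ) : Option Str :=
  if (tI st = 0 ∨ i + 1 < tI st) ∧ bad q A i (tN st) (lv (tW st) (i+1)) = false then
    kfind q A i (tN st) (lv (tP st) (i+1)) else none

/-- the bit of `u` at `y` -/
def bit (u : Str) (y : ℕ) : ℕ := bif u.getD y false then 1 else 0

/-- `u` is different from the function given by `F i` -/
def canc (i : ℕ) (u : Str) : Bool :=
  bEx (fun y => match F i y with | some v => v != bit u y | none => false) u.length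

/-- diagonalize against program `i` -/
def dact (st : St) (i : ℕ) : Option Str :=
  if canc F i (lv (tW st) (i+1)) then none else
    bf (fun y => if (lv (tW st) (i+1)).length ≤ y ∧ F i y = some (bit (lv (tW st) (i+2)) y) then
      some ((lv (tW st) (i+2)).take y ++ [!((lv (tW st) (i+2)).getD y false)]) else none)
      (lv (tW st) (i+2)).length

/-- make the world longer -/
def gact (st : St) (i : ℕ) : Option Str :=
  if (lv (tW st) (i+1)).length ≤ i then
    some (lv (tW st) (i+1) ++ List.replicate (i+1) false) else none

/-- the action of requirement `i` -/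
def act (st : St) (i : ℕ) : Option Str := kact q A st i <|> (dact F st i <|> gact st i)

/-- the boundary step at time `M` -/
def bstep (M : ℕ) (st : St) : St :=
  match bf (fun i => (act q A F st i).map (fun σ => (i, σ))) (tE st) with
  | some p => ((M, tE st, p.1 + 1), (((List.range (p.1+1)).map (fun l => lv (tW st) l), p.2), tW st))
  | none => ((M, tE st + 1, 0),
      (((List.range (tE st + 1)).map (fun l => lv (tW st) (l+1)), (tW st).2), tW st))

/-- the sequence of states -/
def S (nx : St → ℕ) : ℕ → St
  | 0 => ((0, 0, 0), (([], []), ([], [])))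
  | r+1 => bstep q A F (nx (S nx r)) (S nx r)

end defs

lemma cand_prefix (w : Str) (k : ℕ) : w <+: cand w k := by
  unfold cand
  split
  · split
    · next h => exact List.prefix_iff_eq_take.2 h.symm
    · exact List.prefix_refl _
  · exact List.prefix_refl _

lemma cand_of_decode {w σ : Str} {k : ℕ} (h : Encodable.decode k = some σ) (hw : w <+: σ) :
    cand w k = σ := by
  unfold cand
  rw [h]
  simp only
  rw [if_pos (List.prefix_iff_eq_take.1 hw).symm]

lemma lv_act (w : Wd) (i : ℕ) (σ : Str) (j : ℕ) :
    lv ((List.range (i+1)).map (fun l => lv w l), σ) j = if j ≤ i then lv w j else σ := by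
  rw [lv, List.getD_eq_getElem?_getD]
  by_cases h : j ≤ i
  · simp [h, show j < i + 1 by omega]
  · simp [h, show ¬ j < i + 1 by omega]

lemma lv_norm (w : Wd) (e : ℕ) (j : ℕ) :
    lv ((List.range (e+1)).map (fun l => lv w (l+1)), w.2) j =
      if j ≤ e then lv w (j+1) else w.2 := by
  rw [lv, List.getD_eq_getElem?_getD]
  by_cases h : j ≤ e
  · simp [h, show j < e + 1 by omega]
  · simp [h, show ¬ j < e + 1 by omega]

section facts

variable {q : Str → ℕ → Option (Option ℕ)} {A : ℕ → ℕ} {F : ℕ → ℕ → Option ℕ}

lemma orElse_some {β : Type} {a b : Option β} {c : β} (h : (a <|> b) = some c) :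
    a = some c ∨ (a = none ∧ b = some c) := by
  cases a with
  | none => right; simpa using h
  | some x => left; simpa using h

lemma orElse_none {β : Type} {a b : Option β} : (a <|> b) = none ↔ a = none ∧ b = none := by
  cases a <;> simp

lemma act_some {st : St} {i : ℕ} {σ : Str} (h : act q A F st i = some σ) :
    kact q A st i = some σ ∨ (kact q A st i = none ∧ dact F st i = some σ) ∨
      (kact q A st i = none ∧ dact F st i = none ∧ gact st i = some σ) := by
  rcases orElse_some h with h | ⟨h1, h2⟩
  · exact Or.inl h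
  · rcases orElse_some h2 with h | ⟨h3, h4⟩
    · exact Or.inr (Or.inl ⟨h1, h⟩)
    · exact Or.inr (Or.inr ⟨h1, h3, h4⟩)

lemma act_none {st : St} {i : ℕ} (h : act q A F st i = none) :
    kact q A st i = none ∧ dact F st i = none ∧ gact st i = none := by
  have h1 := orElse_none.1 h
  exact ⟨h1.1, orElse_none.1 h1.2⟩

lemma kact_some {st : St} {i : ℕ} {σ : Str} (h : kact q A st i = some σ) :
    (tI st = 0 ∨ i + 1 < tI st) ∧ bad q A i (tN st) (lv (tW st) (i+1)) = false ∧
      lv (tP st) (i+1) <+: σ ∧ bad q A i (tN st) σ = true := by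
  unfold kact at h
  split at h
  · next h1 =>
    refine ⟨h1.1, h1.2, ?_⟩
    unfold kfind at h
    obtain ⟨k, -, h2, -⟩ := bf_some h
    split at h2
    · next h3 =>
      have : cand (lv (tP st) (i+1)) k = σ := by simpa using h2
      exact ⟨this ▸ cand_prefix _ _, this ▸ h3⟩
    · simp at h2
  · simp at h

lemma dact_some {st : St} {i : ℕ} {σ : Str} (hn : lv (tW st) (i+1) <+: lv (tW st) (i+2))
    (h : dact F st i = some σ) :
    canc F i (lv (tW st) (i+1)) = false ∧ lv (tW st) (i+1) <+: σ ∧ canc F i σ = true := by
  unfold dact at h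
  split at h
  · simp at h
  · next h1 =>
    refine ⟨by simpa using h1, ?_⟩
    obtain ⟨y, hy, h2, -⟩ := bf_some h
    split at h2
    · next h3 =>
      have h4 : (lv (tW st) (i+2)).take y ++ [!((lv (tW st) (i+2)).getD y false)] = σ := by
        simpa using h2
      have hl : ((lv (tW st) (i+2)).take y).length = y := by
        rw [List.length_take]; omega
      constructor
      · rw [← h4]
        refine List.IsPrefix.trans ?_ (List.prefix_append _ _)
        rw [List.prefix_iff_eq_take] at hn ⊢
        rw [List.take_take, Nat.min_eq_left h3.1]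
        exact hn
      · unfold canc
        rw [bEx_iff]
        refine ⟨y, ?_, ?_⟩
        · rw [← h4, List.length_append, hl]; simp
        · rw [h3.2]
          simp only [bne_iff_ne, ne_eq]
          rw [← h4]
          unfold bit
          have h5 : (((lv (tW st) (i+2)).take y ++ [!((lv (tW st) (i+2)).getD y false)]).getD y
              false) = !((lv (tW st) (i+2)).getD y false) := by
            rw [List.getD_eq_getElem?_getD, List.getElem?_append_right (by omega), hl]
            simp
          rw [h5]
          cases (lv (tW st) (i+2)).getD y false <;> simp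
    · simp at h2

lemma gact_some {st : St} {i : ℕ} {σ : Str} (h : gact st i = some σ) :
    (lv (tW st) (i+1)).length ≤ i ∧ lv (tW st) (i+1) <+: σ ∧ i < σ.length := by
  unfold gact at h
  split at h
  · next h1 =>
    have h2 : lv (tW st) (i+1) ++ List.replicate (i+1) false = σ := by simpa using h
    refine ⟨h1, h2 ▸ List.prefix_append _ _, ?_⟩
    rw [← h2, List.length_append, List.length_replicate]
    omega
  · simp at h

/-- the two kinds of steps -/
lemma bstep_cases (M : ℕ) (st : St) :
    ((∀ i < tE st, act q A F st i = none) ∧ tN (bstep q A F M st) = M ∧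
      tE (bstep q A F M st) = tE st + 1 ∧ tI (bstep q A F M st) = 0 ∧
      (∀ l, lv (tW (bstep q A F M st)) l = if l ≤ tE st then lv (tW st) (l+1) else (tW st).2) ∧
      (tW (bstep q A F M st)).2 = (tW st).2 ∧ tP (bstep q A F M st) = tW st) ∨
    (∃ i < tE st, ∃ σ, act q A F st i = some σ ∧ (∀ j < i, act q A F st j = none) ∧
      tN (bstep q A F M st) = M ∧ tE (bstep q A F M st) = tE st ∧
      tI (bstep q A F M st) = i + 1 ∧
      (∀ l, lv (tW (bstep q A F M st)) l = if l ≤ i then lv (tW st) l else σ) ∧
      (tW (bstep q A F M st)).2 = σ ∧ tP (bstep q A F M st) = tW st) := by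
  unfold bstep
  cases h : bf (fun i => (act q A F st i).map (fun σ => (i, σ))) (tE st) with
  | none =>
    left
    refine ⟨fun i hi => ?_, rfl, rfl, rfl, fun l => lv_norm _ _ _, rfl, rfl⟩
    have := bf_none.1 h i hi
    simpa using this
  | some p =>
    right
    obtain ⟨k, hk, h1, h2⟩ := bf_some h
    simp only [Option.map_eq_some_iff] at h1
    obtain ⟨σ, h3, rfl⟩ := h1
    refine ⟨k, hk, σ, h3, fun j hj => ?_, rfl, rfl, rfl, fun l => lv_act _ _ _ _, rfl, rfl⟩
    have := h2 j hj
    simpa using this

/-- the invariant of the construction -/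
structure Inv (st : St) : Prop where
  n1 : ∀ l, lv (tW st) l <+: lv (tW st) (l+1)
  n2 : ∀ l, lv (tW st) l <+: (tW st).2
  p1 : ∀ i < tE st, (tI st = 0 ∨ i + 1 < tI st) → lv (tW st) i <+: lv (tP st) (i+1)

lemma act_prefix {st : St} (hI : Inv st) {i : ℕ} (hi : i < tE st) {σ : Str}
    (h : act q A F st i = some σ) : lv (tW st) i <+: σ := by
  rcases act_some h with h | ⟨-, h⟩ | ⟨-, -, h⟩
  · have h1 := kact_some h
    exact (hI.p1 i hi h1.1).trans h1.2.2.1
  · exact (hI.n1 i).trans (dact_some (hI.n1 _) h).2.1
  · exact (hI.n1 i).trans (gact_some h).2.1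

lemma Inv.bstep {st : St} (hI : Inv st) (M : ℕ) : Inv (bstep q A F M st) := by
  rcases bstep_cases (q := q) (A := A) (F := F) M st with
    ⟨-, h1, h2, h3, h4, h5, h6⟩ | ⟨i, hi, σ, h0, -, h1, h2, h3, h4, h5, h6⟩
  · refine ⟨fun l => ?_, fun l => ?_, fun i hi _ => ?_⟩
    · rw [h4, h4]
      by_cases h : l + 1 ≤ tE st
      · rw [if_pos h, if_pos (by omega)]
        exact hI.n1 _
      · rw [if_neg h]
        split
        · exact hI.n2 _
        · exact List.prefix_refl _
    · rw [h4, h5]
      split
      · exact hI.n2 _
      · exact List.prefix_refl _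
    · rw [h2] at hi
      rw [h4, h6, if_pos (by omega)]
  · have hσ := act_prefix hI hi h0
    refine ⟨fun l => ?_, fun l => ?_, fun j hj hj2 => ?_⟩
    · rw [h4, h4]
      by_cases h : l + 1 ≤ i
      · rw [if_pos h, if_pos (by omega)]
        exact hI.n1 _
      · rw [if_neg h]
        by_cases h' : l ≤ i
        · rw [if_pos h']
          have : l = i := by omega
          rw [this]
          exact hσ
        · rw [if_neg h']
    · rw [h4, h5]
      by_cases h : l ≤ i
      · rw [if_pos h]
        have hl : lv (tW st) l <+: lv (tW st) i := by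
          obtain ⟨k, rfl⟩ := Nat.exists_eq_add_of_le h
          clear h h4 hσ h0 hi h3
          induction k with
          | zero => exact List.prefix_refl _
          | succ k ih => exact ih.trans (hI.n1 _)
        exact hl.trans hσ
      · rw [if_neg h]
    · rw [h3] at hj2
      have hji : j < i := by omega
      rw [h4, h6, if_pos (by omega)]
      exact hI.n1 _

lemma Inv.nest {st : St} (hI : Inv st) {l l' : ℕ} (h : l ≤ l') :
    lv (tW st) l <+: lv (tW st) l' := by
  obtain ⟨k, rfl⟩ := Nat.exists_eq_add_of_le h
  clear h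
  induction k with
  | zero => exact List.prefix_refl _
  | succ k ih => exact ih.trans (hI.n1 _)

lemma bad_mono (hq : ∀ σ τ z o, σ <+: τ → q σ z = some o → q τ z = some o) {i N N' : ℕ}
    {σ τ : Str} (hN : N ≤ N') (h : σ <+: τ) (hb : bad q A i N σ = true) :
    bad q A i N' τ = true := by
  unfold bad at hb ⊢
  rw [bEx_iff] at hb ⊢
  obtain ⟨x, hx, hb⟩ := hb
  rw [bEx_iff] at hb
  obtain ⟨T, hT, hb⟩ := hb
  refine ⟨x, by omega, bEx_iff.2 ⟨T, by omega, ?_⟩⟩
  unfold wr at hb ⊢
  split at hb
  · next v hv => rw [hq _ _ _ _ h hv]; exact hb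
  · simp at hb

lemma bad_exists {i N : ℕ} {σ : Str} (hb : bad q A i N σ = true) :
    ∃ x T v, q σ (Nat.pair i (Nat.pair x T)) = some (some v) ∧ v ≠ A x := by
  unfold bad at hb
  rw [bEx_iff] at hb
  obtain ⟨x, hx, hb⟩ := hb
  rw [bEx_iff] at hb
  obtain ⟨T, hT, hb⟩ := hb
  unfold wr at hb
  split at hb
  · next v hv => exact ⟨x, T, v, hv, by simpa using hb⟩
  · simp at hb

lemma bad_false {i N : ℕ} {σ : Str} (hb : bad q A i N σ = false) {x T v : ℕ} (hx : x < N)
    (hT : T < N) (h : q σ (Nat.pair i (Nat.pair x T)) = some (some v)) : v = A x := by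
  by_contra hv
  have : bad q A i N σ = true := by
    unfold bad
    rw [bEx_iff]
    refine ⟨x, hx, bEx_iff.2 ⟨T, hT, ?_⟩⟩
    unfold wr
    rw [h]
    simpa using hv
  rw [hb] at this
  exact Bool.false_ne_true this

lemma bit_prefix {u u' : Str} (h : u <+: u') {y : ℕ} (hy : y < u.length) : bit u y = bit u' y := by
  obtain ⟨ρ, rfl⟩ := h
  unfold bit
  rw [List.getD_eq_getElem?_getD, List.getD_eq_getElem?_getD, List.getElem?_append_left hy]

lemma canc_mono {i : ℕ} {u u' : Str} (h : u <+: u') (hc : canc F i u = true) :
    canc F i u' = true := by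
  unfold canc at hc ⊢
  rw [bEx_iff] at hc ⊢
  obtain ⟨y, hy, hc⟩ := hc
  refine ⟨y, lt_of_lt_of_le hy h.length_le, ?_⟩
  rw [← bit_prefix h hy]
  exact hc

lemma canc_exists {i : ℕ} {u : Str} (hc : canc F i u = true) :
    ∃ y < u.length, ∃ v, F i y = some v ∧ v ≠ bit u y := by
  unfold canc at hc
  rw [bEx_iff] at hc
  obtain ⟨y, hy, hc⟩ := hc
  refine ⟨y, hy, ?_⟩
  split at hc
  · next v hv => exact ⟨v, hv, by simpa using hc⟩
  · simp at hc

lemma canc_false {i : ℕ} {u : Str} (hc : canc F i u = false) {y v : ℕ} (hy : y < u.length)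
    (h : F i y = some v) : v = bit u y := by
  by_contra hv
  have : canc F i u = true := by
    unfold canc
    rw [bEx_iff]
    refine ⟨y, hy, ?_⟩
    rw [h]
    simpa using hv
  rw [hc] at this
  exact Bool.false_ne_true this

end facts

end Pool.Agent.Helper74.NH
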