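import Pool.Agent.Helper74.NH.Core
import Pool.Agent.Helper74.NH.Use

set_option autoImplicit false

/-! The combinatorial core: finite injury, the limit set and its properties. -/

namespace Pool.Agent.Helper74.NH

section run

variable {q : Str → ℕ → Option (Option ℕ)} {A : ℕ → ℕ} {F : ℕ → ℕ → Option ℕ} {nx : St → ℕ}

lemma S_inv (r : ℕ) : Inv (S q A F nx r) := by
  induction r with
  | zero =>
    refine ⟨fun l => ?_, fun l => ?_, fun i hi => ?_⟩
    · simp [S, lv]
    · simp [S, lv]
    · change i < 0 at hi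
      omega
  | succ r ih => exact ih.bstep _

lemma tN_succ (r : ℕ) : tN (S q A F nx (r+1)) = nx (S q A F nx r) := by
  rcases bstep_cases (q := q) (A := A) (F := F) (nx (S q A F nx r)) (S q A F nx r) with
    ⟨-, h1, -⟩ | ⟨i, -, σ, -, -, h1, -⟩
  · exact h1
  · exact h1

lemma tP_succ (r : ℕ) : tP (S q A F nx (r+1)) = tW (S q A F nx r) := by
  rcases bstep_cases (q := q) (A := A) (F := F) (nx (S q A F nx r)) (S q A F nx r) with
    ⟨-, -, -, -, -, -, h⟩ | ⟨i, -, σ, -, -, -, -, -, -, -, h⟩
  · exact h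
  · exact h

lemma tN_mono (hnx : ∀ st, tN st < nx st) {r r' : ℕ} (h : r ≤ r') :
    tN (S q A F nx r) ≤ tN (S q A F nx r') := by
  obtain ⟨k, rfl⟩ := Nat.exists_eq_add_of_le h
  clear h
  induction k with
  | zero => exact le_rfl
  | succ k ih =>
    rw [← Nat.add_assoc, tN_succ]
    exact ih.trans (hnx _).le

/-- monotonicity of level `l` when the levels `≤ l` do not act -/
lemma lv_mono_succ {l r : ℕ} (h : tI (S q A F nx (r+1)) = 0 ∨ l < tI (S q A F nx (r+1))) :
    lv (tW (S q A F nx r)) l <+: lv (tW (S q A F nx (r+1))) l := by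
  have hI := S_inv (q := q) (A := A) (F := F) (nx := nx) r
  rcases bstep_cases (q := q) (A := A) (F := F) (nx (S q A F nx r)) (S q A F nx r) with
    ⟨-, -, -, -, h4, -⟩ | ⟨i, -, σ, -, -, -, -, h3, h4, -⟩
  · have h4' := h4 l
    change lv (tW (S q A F nx (r+1))) l = _ at h4'
    rw [h4']
    split
    · exact hI.n1 _
    · exact hI.n2 _
  · have h4' := h4 l
    change lv (tW (S q A F nx (r+1))) l = _ at h4'
    change tI (S q A F nx (r+1)) = _ at h3
    rw [h4', if_pos (by omega)]

lemma lv_mono {l r r' : ℕ} (hr : r ≤ r')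
    (h : ∀ m, r < m → m ≤ r' → tI (S q A F nx m) = 0 ∨ l < tI (S q A F nx m)) :
    lv (tW (S q A F nx r)) l <+: lv (tW (S q A F nx r')) l := by
  obtain ⟨k, rfl⟩ := Nat.exists_eq_add_of_le hr
  clear hr
  induction k with
  | zero => exact List.prefix_refl _
  | succ k ih =>
    refine (ih fun m h1 h2 => h m h1 (by omega)).trans ?_
    rw [← Nat.add_assoc]
    exact lv_mono_succ (h _ (by omega) (by omega))

lemma lv_zero_mono {r r' : ℕ} (hr : r ≤ r') :
    lv (tW (S q A F nx r)) 0 <+: lv (tW (S q A F nx r')) 0 :=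
  lv_mono hr fun m _ _ => by omega

lemma once {X P : ℕ → Prop} {r2 : ℕ} (h1 : ∀ r ≥ r2, X r → P (r+1))
    (h2 : ∀ r ≥ r2, P r → P (r+1)) (h3 : ∀ r, P r → ¬ X r) : ∃ r3 ≥ r2, ∀ r ≥ r3, ¬ X r := by
  by_cases h : ∃ r ≥ r2, X r
  · obtain ⟨r, hr, hX⟩ := h
    have hP : ∀ k, P (r + 1 + k) := by
      intro k
      induction k with
      | zero => exact h1 r hr hX
      | succ k ih => exact h2 (r+1+k) (by omega) ih
    refine ⟨r+1, by omega, fun r' hr' => ?_⟩
    obtain ⟨k, rfl⟩ := Nat.exists_eq_add_of_le hr'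
    exact h3 _ (hP k)
  · exact ⟨r2, le_rfl, fun r hr hX => h ⟨r, hr, hX⟩⟩

/-- what happens at the level `i + 1` in one step -/
lemma step_level {i r : ℕ} (hQ : tI (S q A F nx (r+1)) = 0 ∨ i < tI (S q A F nx (r+1))) :
    (tI (S q A F nx (r+1)) ≠ i + 1 ∧
      lv (tW (S q A F nx r)) (i+1) <+: lv (tW (S q A F nx (r+1))) (i+1)) ∨
    (tI (S q A F nx (r+1)) = i + 1 ∧
      act q A F (S q A F nx r) i = some (lv (tW (S q A F nx (r+1))) (i+1))) := by
  by_cases h : tI (S q A F nx (r+1)) = i + 1
  · right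
    refine ⟨h, ?_⟩
    rcases bstep_cases (q := q) (A := A) (F := F) (nx (S q A F nx r)) (S q A F nx r) with
      ⟨-, -, -, h3, -, -⟩ | ⟨i', -, σ, h0, -, -, -, h3, h4, -⟩
    · change tI (S q A F nx (r+1)) = 0 at h3
      omega
    · have h4' := h4 (i+1)
      change lv (tW (S q A F nx (r+1))) (i+1) = _ at h4'
      change tI (S q A F nx (r+1)) = _ at h3
      have : i' = i := by omega
      subst this
      rw [h4', if_neg (by omega)]
      exact h0
  · left
    refine ⟨h, lv_mono_succ ?_⟩
    omega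

/-- every level acts only finitely often -/
theorem quiet (hq : ∀ σ τ z o, σ <+: τ → q σ z = some o → q τ z = some o)
    (hnx : ∀ st, tN st < nx st) (i : ℕ) :
    ∃ r0, ∀ r ≥ r0, tI (S q A F nx r) = 0 ∨ i < tI (S q A F nx r) := by
  induction i with
  | zero => exact ⟨0, fun r _ => by omega⟩
  | succ i ih =>
    obtain ⟨r1, hr1⟩ := ih
    set s := S q A F nx with hs
    let u : ℕ → Str := fun r => lv (tW (s r)) (i+1)
    let ac : ℕ → Prop := fun r => tI (s (r+1)) = i + 1
    have hstep : ∀ r ≥ r1, (¬ ac r ∧ u r <+: u (r+1)) ∨ (ac r ∧ act q A F (s r) i = some (u (r+1))) := by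
      intro r hr
      exact step_level (hr1 (r+1) (by omega))
    -- no more kills
    obtain ⟨r2, hr2, hK⟩ : ∃ r2 ≥ r1, ∀ r ≥ r2, ¬ (ac r ∧ ∃ σ, kact q A (s r) i = some σ) := by
      refine once (P := fun r => r1 ≤ r ∧ bad q A i (tN (s r)) (u r) = true) ?_ ?_ ?_
      · rintro r hr ⟨h1, σ, h2⟩
        rcases hstep r hr with ⟨h, -⟩ | ⟨-, h⟩
        · exact absurd h1 h
        · have h3 : act q A F (s r) i = some σ := by
            unfold act
            rw [h2]
            rfl
          have h4 : u (r+1) = σ := by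
            rw [h3] at h
            exact (Option.some.inj h).symm
          refine ⟨by omega, ?_⟩
          rw [h4]
          exact bad_mono hq (tN_mono hnx (by omega)) (List.prefix_refl _) (kact_some h2).2.2.2
      · rintro r hr ⟨h1, h2⟩
        refine ⟨by omega, ?_⟩
        have h5 : u r <+: u (r+1) := by
          rcases hstep r h1 with ⟨-, h⟩ | ⟨-, h⟩
          · exact h
          · rcases act_some h with h | ⟨-, h⟩ | ⟨-, -, h⟩
            · have := (kact_some h).2.1
              change bad q A i (tN (s r)) (u r) = false at this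
              rw [h2] at this
              exact absurd this (by simp)
            · exact (dact_some ((S_inv r).n1 _) h).2.1
            · exact (gact_some h).2.1
        exact bad_mono hq (tN_mono hnx (by omega)) h5 h2
      · rintro r ⟨h1, h2⟩ ⟨-, σ, h3⟩
        have := (kact_some h3).2.1
        change bad q A i (tN (s r)) (u r) = false at this
        rw [h2] at this
        exact absurd this (by simp)
    have hgrow : ∀ r ≥ r2, u r <+: u (r+1) := by
      intro r hr
      rcases hstep r (by omega) with ⟨-, h⟩ | ⟨h0, h⟩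
      · exact h
      · rcases act_some h with h | ⟨-, h⟩ | ⟨-, -, h⟩
        · exact absurd ⟨h0, _, h⟩ (hK r hr)
        · exact (dact_some ((S_inv r).n1 _) h).2.1
        · exact (gact_some h).2.1
    -- no more diagonalization
    obtain ⟨r3, hr3, hD⟩ : ∃ r3 ≥ r2, ∀ r ≥ r3, ¬ (ac r ∧ ∃ σ, kact q A (s r) i = none ∧
        dact F (s r) i = some σ) := by
      refine once (P := fun r => canc F i (u r) = true) ?_ ?_ ?_
      · rintro r hr ⟨h1, σ, h2, h3⟩
        rcases hstep r (by omega) with ⟨h, -⟩ | ⟨-, h⟩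
        · exact absurd h1 h
        · have h4 : act q A F (s r) i = some σ := by
            unfold act
            rw [h2, h3]
            rfl
          have h5 : u (r+1) = σ := by
            rw [h4] at h
            exact (Option.some.inj h).symm
          rw [h5]
          exact (dact_some ((S_inv r).n1 _) h3).2.2
      · intro r hr h
        exact canc_mono (hgrow r hr) h
      · rintro r h ⟨-, σ, -, h2⟩
        have := (dact_some ((S_inv r).n1 _) h2).1
        change canc F i (u r) = false at this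
        rw [h] at this
        exact absurd this (by simp)
    -- no more lengthening
    obtain ⟨r4, hr4, hG⟩ : ∃ r4 ≥ r3, ∀ r ≥ r4, ¬ (ac r ∧ ∃ σ, kact q A (s r) i = none ∧
        dact F (s r) i = none ∧ gact (s r) i = some σ) := by
      refine once (P := fun r => i < (u r).length) ?_ ?_ ?_
      · rintro r hr ⟨h1, σ, h2, h3, h4⟩
        rcases hstep r (by omega) with ⟨h, -⟩ | ⟨-, h⟩
        · exact absurd h1 h
        · have h5 : act q A F (s r) i = some σ := by
            unfold act
            rw [h2, h3, h4]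
            rfl
          have h6 : u (r+1) = σ := by
            rw [h5] at h
            exact (Option.some.inj h).symm
          rw [h6]
          exact (gact_some h4).2.2
      · intro r hr h
        exact lt_of_lt_of_le h (hgrow r (by omega)).length_le
      · rintro r h ⟨-, σ, -, -, h2⟩
        have := (gact_some h2).1
        change (u r).length ≤ i at this
        omega
    refine ⟨r4 + 1, fun r hr => ?_⟩
    obtain ⟨r, rfl⟩ : ∃ r', r = r' + 1 := ⟨r - 1, by omega⟩
    rcases hr1 (r+1) (by omega) with h | h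
    · exact Or.inl h
    · by_cases h1 : tI (s (r+1)) = i + 1
      · exfalso
        rcases hstep r (by omega) with ⟨h2, -⟩ | ⟨-, h2⟩
        · exact h2 h1
        · rcases act_some h2 with h3 | ⟨h4, h3⟩ | ⟨h4, h5, h3⟩
          · exact hK r (by omega) ⟨h1, _, h3⟩
          · exact hD r (by omega) ⟨h1, _, h4, h3⟩
          · exact hG r (by omega) ⟨h1, _, h4, h5, h3⟩
      · right; omega

lemma tE_mono {r r' : ℕ} (h : r ≤ r') : tE (S q A F nx r) ≤ tE (S q A F nx r') := by
  obtain ⟨k, rfl⟩ := Nat.exists_eq_add_of_le h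
  clear h
  induction k with
  | zero => exact le_rfl
  | succ k ih =>
    refine ih.trans ?_
    rcases bstep_cases (q := q) (A := A) (F := F) (nx (S q A F nx (r+k))) (S q A F nx (r+k)) with
      ⟨-, -, h2, -⟩ | ⟨i', -, σ, -, -, -, h2, -⟩
    · change tE (S q A F nx (r+k+1)) = _ at h2
      rw [← Nat.add_assoc, h2]; omega
    · change tE (S q A F nx (r+k+1)) = _ at h2
      rw [← Nat.add_assoc, h2]

/-- there are infinitely many steps without an action -/
theorem inf_norm (hq : ∀ σ τ z o, σ <+: τ → q σ z = some o → q τ z = some o)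
    (hnx : ∀ st, tN st < nx st) (r0 : ℕ) : ∃ r ≥ r0, tI (S q A F nx (r+1)) = 0 := by
  by_contra hcon
  push Not at hcon
  have hE : ∀ r ≥ r0, tE (S q A F nx r) = tE (S q A F nx r0) := by
    intro r hr
    obtain ⟨k, rfl⟩ := Nat.exists_eq_add_of_le hr
    clear hr
    induction k with
    | zero => rfl
    | succ k ih =>
      rw [← ih]
      rcases bstep_cases (q := q) (A := A) (F := F) (nx (S q A F nx (r0+k))) (S q A F nx (r0+k)) with
        ⟨-, -, -, h2, -⟩ | ⟨i', -, σ, -, -, -, h2, -⟩
      · exact absurd h2 (hcon _ (by omega))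
      · exact h2
  obtain ⟨r1, hr1⟩ := quiet (q := q) (A := A) (F := F) hq hnx (tE (S q A F nx r0))
  rcases bstep_cases (q := q) (A := A) (F := F) (nx (S q A F nx (max r0 r1)))
      (S q A F nx (max r0 r1)) with
    ⟨-, -, -, h2, -⟩ | ⟨i', hi, σ, -, -, -, -, h3, -⟩
  · exact hcon _ (le_max_left _ _) h2
  · change tI (S q A F nx (max r0 r1 + 1)) = i' + 1 at h3
    rw [hE _ (le_max_left _ _)] at hi
    have := hr1 (max r0 r1 + 1) (by omega)
    omega

theorem tE_unbounded (hq : ∀ σ τ z o, σ <+: τ → q σ z = some o → q τ z = some o)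
    (hnx : ∀ st, tN st < nx st) (n : ℕ) : ∃ r0, ∀ r ≥ r0, n ≤ tE (S q A F nx r) := by
  induction n with
  | zero => exact ⟨0, fun _ _ => Nat.zero_le _⟩
  | succ n ih =>
    obtain ⟨r0, h0⟩ := ih
    obtain ⟨r, hr, h⟩ := inf_norm (q := q) (A := A) (F := F) hq hnx r0
    refine ⟨r+1, fun r' hr' => ?_⟩
    have h1 : n + 1 ≤ tE (S q A F nx (r+1)) := by
      rcases bstep_cases (q := q) (A := A) (F := F) (nx (S q A F nx r)) (S q A F nx r) with
        ⟨-, -, h2, -⟩ | ⟨i', -, σ, -, -, -, -, h3, -⟩
      · change tE (S q A F nx (r+1)) = _ at h2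
        rw [h2]
        have := h0 r hr
        omega
      · change tI (S q A F nx (r+1)) = _ at h3
        omega
    exact h1.trans (tE_mono hr')

/-- worlds of quiet levels flow down to level `0` -/
theorem flow (hq : ∀ σ τ z o, σ <+: τ → q σ z = some o → q τ z = some o)
    (hnx : ∀ st, tN st < nx st) (l : ℕ) : ∀ r0,
    (∀ r ≥ r0, tI (S q A F nx r) = 0 ∨ l < tI (S q A F nx r)) →
    ∀ r ≥ r0, ∃ r' ≥ r, lv (tW (S q A F nx r)) l <+: lv (tW (S q A F nx r')) 0 := by
  induction l with
  | zero => exact fun r0 _ r _ => ⟨r, le_rfl, List.prefix_refl _⟩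
  | succ l ih =>
    intro r0 h0 r hr
    obtain ⟨r1, hr1, h1⟩ := inf_norm (q := q) (A := A) (F := F) hq hnx r
    have h2 : lv (tW (S q A F nx r)) (l+1) <+: lv (tW (S q A F nx r1)) (l+1) :=
      lv_mono hr1 fun m hm _ => h0 m (by omega)
    have h3 : lv (tW (S q A F nx r1)) (l+1) <+: lv (tW (S q A F nx (r1+1))) l := by
      rcases bstep_cases (q := q) (A := A) (F := F) (nx (S q A F nx r1)) (S q A F nx r1) with
        ⟨-, -, -, -, h4, -⟩ | ⟨i', -, σ, -, -, -, -, h3, -⟩
      · have h4' := h4 l
        change lv (tW (S q A F nx (r1+1))) l = _ at h4'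
        rw [h4']
        split
        · exact List.prefix_refl _
        · exact (S_inv r1).n2 _
      · change tI (S q A F nx (r1+1)) = _ at h3
        omega
    obtain ⟨r', hr', h4⟩ := ih r0 (fun r hr => by have := h0 r hr; omega) (r1+1) (by omega)
    exact ⟨r', by omega, h2.trans (h3.trans h4)⟩

/-- the limit set -/
def lim (q : Str → ℕ → Option (Option ℕ)) (A : ℕ → ℕ) (F : ℕ → ℕ → Option ℕ) (nx : St → ℕ) :
    Set ℕ := {y | ∃ r, (lv (tW (S q A F nx r)) 0)[y]? = some true}

lemma pre_eq_of_getElem {u : Str} {X : Set ℕ}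
    (h : ∀ y (hy : y < u.length), u[y] = true ↔ y ∈ X) : u = pre X u.length := by
  apply List.ext_getElem
  · simp
  · intro y h1 h2
    have := h y h1
    classical
    have h3 : (pre X u.length)[y]? = some (decide (y ∈ X)) := by
      rw [pre_getElem?, if_pos h1]
    rw [List.getElem?_eq_getElem h2] at h3
    rw [Option.some.inj h3]
    by_cases hy : y ∈ X
    · simp [hy, this.2 hy]
    · simp only [hy, decide_false]
      by_contra hc
      exact hy (this.1 (by simpa using hc))

lemma zero_sub (r : ℕ) : lv (tW (S q A F nx r)) 0 =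
    pre (lim q A F nx) (lv (tW (S q A F nx r)) 0).length := by
  refine pre_eq_of_getElem fun y hy => ?_
  constructor
  · intro h
    exact ⟨r, by rw [List.getElem?_eq_getElem hy, h]⟩
  · rintro ⟨r', h⟩
    rcases le_total r r' with hr | hr
    · obtain ⟨ρ, hρ⟩ := lv_zero_mono (q := q) (A := A) (F := F) (nx := nx) hr
      rw [← hρ, List.getElem?_append_left hy, List.getElem?_eq_getElem hy] at h
      exact Option.some.inj h
    · obtain ⟨ρ, hρ⟩ := lv_zero_mono (q := q) (A := A) (F := F) (nx := nx) hr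
      have hy' : y < (lv (tW (S q A F nx r')) 0).length := (List.getElem?_eq_some_iff.1 h).1
      have h2 : (lv (tW (S q A F nx r)) 0)[y]? = some true := by
        rw [← hρ, List.getElem?_append_left hy']
        exact h
      rw [List.getElem?_eq_getElem hy] at h2
      exact Option.some.inj h2

lemma sub_of_prefix {u v : Str} {X : Set ℕ} (h : u <+: v) (hv : v = pre X v.length) :
    u = pre X u.length := by
  have h1 := List.prefix_iff_eq_take.1 h
  rw [hv] at h1
  have h2 := h.length_le
  conv_lhs => rw [h1]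
  unfold pre
  rw [← List.map_take, List.take_range, Nat.min_eq_left h2]

theorem settled (hq : ∀ σ τ z o, σ <+: τ → q σ z = some o → q τ z = some o)
    (hnx : ∀ st, tN st < nx st) (i : ℕ) :
    ∃ r0, ∀ r ≥ r0, (tI (S q A F nx r) = 0 ∨ i + 1 < tI (S q A F nx r)) ∧
      i < tE (S q A F nx r) ∧ act q A F (S q A F nx r) i = none ∧
      lv (tW (S q A F nx r)) (i+1) =
        pre (lim q A F nx) (lv (tW (S q A F nx r)) (i+1)).length := by
  obtain ⟨r0, h0⟩ := quiet (q := q) (A := A) (F := F) hq hnx (i+1)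
  obtain ⟨r1, h1⟩ := tE_unbounded (q := q) (A := A) (F := F) hq hnx (i+1)
  refine ⟨max r0 r1, fun r hr => ?_⟩
  have hr0 : r ≥ r0 := le_trans (le_max_left _ _) hr
  have hr1 : r ≥ r1 := le_trans (le_max_right _ _) hr
  refine ⟨h0 r hr0, h1 r hr1, ?_, ?_⟩
  · rcases bstep_cases (q := q) (A := A) (F := F) (nx (S q A F nx r)) (S q A F nx r) with
      ⟨h, -⟩ | ⟨i', hi, σ, -, h, -, -, h3, -⟩
    · exact h i (h1 r hr1)
    · change tI (S q A F nx (r+1)) = _ at h3
      have := h0 (r+1) (by omega)
      exact h i (by omega)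
  · obtain ⟨r', -, h⟩ := flow (q := q) (A := A) (F := F) hq hnx (i+1) r0 h0 r hr0
    exact sub_of_prefix h (zero_sub r')

/-- the worlds of level zero get long -/
theorem long (hq : ∀ σ τ z o, σ <+: τ → q σ z = some o → q τ z = some o)
    (hnx : ∀ st, tN st < nx st) (n : ℕ) : ∃ r, n < (lv (tW (S q A F nx r)) 0).length := by
  obtain ⟨r0, h0⟩ := settled (q := q) (A := A) (F := F) hq hnx n
  obtain ⟨r1, h1⟩ := quiet (q := q) (A := A) (F := F) hq hnx (n+1)
  have h2 := (act_none (h0 (max r0 r1) (le_max_left _ _)).2.2.1).2.2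
  unfold gact at h2
  split at h2
  · simp at h2
  · next h3 =>
    obtain ⟨r', -, h⟩ := flow (q := q) (A := A) (F := F) hq hnx (n+1) r1 h1 (max r0 r1)
      (le_max_right _ _)
    exact ⟨r', by have := h.length_le; omega⟩

/-- simulation -/
theorem simul (hq : ∀ σ τ z o, σ <+: τ → q σ z = some o → q τ z = some o)
    (hnx : ∀ st, tN st < nx st) (i : ℕ) :
    (∃ x T v n, q (pre (lim q A F nx) n) (Nat.pair i (Nat.pair x T)) = some (some v) ∧ v ≠ A x) ∨
    ∃ r0, ∀ r ≥ r0, lv (tW (S q A F nx r)) (i+1) =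
        pre (lim q A F nx) (lv (tW (S q A F nx r)) (i+1)).length ∧
      ∀ k < nx (S q A F nx r), ∀ x < nx (S q A F nx r), ∀ T < nx (S q A F nx r), ∀ v,
        q (cand (lv (tW (S q A F nx r)) (i+1)) k) (Nat.pair i (Nat.pair x T)) = some (some v) →
          v = A x := by
  obtain ⟨r0, h0⟩ := settled (q := q) (A := A) (F := F) hq hnx i
  by_cases hb : ∃ r ≥ r0, bad q A i (tN (S q A F nx r)) (lv (tW (S q A F nx r)) (i+1)) = true
  · left
    obtain ⟨r, hr, hb⟩ := hb
    obtain ⟨x, T, v, h1, h2⟩ := bad_exists hb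
    rw [(h0 r hr).2.2.2] at h1
    exact ⟨x, T, v, _, h1, h2⟩
  · right
    push Not at hb
    refine ⟨r0, fun r hr => ⟨(h0 r hr).2.2.2, ?_⟩⟩
    intro k hk x hx T hT v hv
    have h1 := (act_none (h0 (r+1) (by omega)).2.2.1).1
    unfold kact at h1
    have h2 : bad q A i (tN (S q A F nx (r+1))) (lv (tW (S q A F nx (r+1))) (i+1)) = false := by
      simpa using hb (r+1) (by omega)
    rw [if_pos ⟨(h0 (r+1) (by omega)).1, h2⟩] at h1
    unfold kfind at h1
    rw [tP_succ, tN_succ] at h1
    have h3 := bf_none.1 h1 k hk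
    split at h3
    · simp at h3
    · next h4 =>
      exact bad_false (by simpa using h4) hx hT hv

lemma bit_pre {X : Set ℕ} {n y : ℕ} (hy : y < n) : bit (pre X n) y = chi X y := by
  unfold bit
  rw [List.getD_eq_getElem?_getD, pre_getElem?, if_pos hy]
  by_cases h : y ∈ X <;> simp [h, chi]

/-- hardness -/
theorem hard (hq : ∀ σ τ z o, σ <+: τ → q σ z = some o → q τ z = some o)
    (hnx : ∀ st, tN st < nx st) (i : ℕ) :
    (∃ y v, F i y = some v ∧ v ≠ chi (lim q A F nx) y) ∨ ∃ Y, ∀ y ≥ Y, F i y = none := by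
  obtain ⟨r0, h0⟩ := settled (q := q) (A := A) (F := F) hq hnx i
  by_cases hb : ∃ r ≥ r0, canc F i (lv (tW (S q A F nx r)) (i+1)) = true
  · left
    obtain ⟨r, hr, hb⟩ := hb
    obtain ⟨y, hy, v, h1, h2⟩ := canc_exists hb
    refine ⟨y, v, h1, ?_⟩
    rw [(h0 r hr).2.2.2, bit_pre hy] at h2
    exact h2
  · right
    push Not at hb
    refine ⟨(lv (tW (S q A F nx r0)) (i+1)).length, fun y hy => ?_⟩
    -- find the first stage where `y` is covered
    have hex : ∃ k, y < (lv (tW (S q A F nx (r0+k))) (i+1)).length := by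
      obtain ⟨r, hr⟩ := long (q := q) (A := A) (F := F) hq hnx y
      refine ⟨r, lt_of_lt_of_le hr ?_⟩
      have h1 := (lv_zero_mono (q := q) (A := A) (F := F) (nx := nx)
        (show r ≤ r0 + r by omega)).length_le
      have h2 := ((S_inv (q := q) (A := A) (F := F) (nx := nx) (r0+r)).nest
        (Nat.zero_le (i+1))).length_le
      exact h1.trans h2
    classical
    obtain ⟨k, hk, hmin⟩ : ∃ k, y < (lv (tW (S q A F nx (r0+k))) (i+1)).length ∧
        ∀ j < k, ¬ y < (lv (tW (S q A F nx (r0+j))) (i+1)).length :=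
      ⟨Nat.find hex, Nat.find_spec hex, fun j hj => Nat.find_min hex hj⟩
    obtain ⟨j, rfl⟩ : ∃ j, k = j + 1 := by
      refine ⟨k - 1, ?_⟩
      rcases Nat.eq_zero_or_pos k with h | h
      · subst h
        rw [Nat.add_zero] at hk
        omega
      · omega
    have hj := hmin j (by omega)
    rw [← Nat.add_assoc] at hk
    have hu' : lv (tW (S q A F nx (r0+j+1))) (i+1) = lv (tW (S q A F nx (r0+j))) (i+2) ∧
        y < (lv (tW (S q A F nx (r0+j))) (i+2)).length := by
      rcases bstep_cases (q := q) (A := A) (F := F) (nx (S q A F nx (r0+j))) (S q A F nx (r0+j)) with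
        ⟨-, -, -, -, h4, -⟩ | ⟨i', hi, σ, -, h, -, -, h3, h4, -⟩
      · have h4' := h4 (i+1)
        change lv (tW (S q A F nx (r0+j+1))) (i+1) = _ at h4'
        rw [if_pos (show i + 1 ≤ _ from (h0 (r0+j) (by omega)).2.1)] at h4'
        rw [h4'] at hk
        exact ⟨h4', hk⟩
      · have h4' := h4 (i+1)
        change lv (tW (S q A F nx (r0+j+1))) (i+1) = _ at h4'
        change tI (S q A F nx (r0+j+1)) = _ at h3
        have := (h0 (r0+j+1) (by omega)).1
        rw [if_pos (by omega)] at h4'
        rw [h4'] at hk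
        exact absurd hk hj
    have hd := (act_none (h0 (r0+j) (by omega)).2.2.1).2.1
    have hc1 : canc F i (lv (tW (S q A F nx (r0+j))) (i+1)) = false := by
      simpa using hb (r0+j) (by omega)
    have hc2 : canc F i (lv (tW (S q A F nx (r0+j+1))) (i+1)) = false := by
      simpa using hb (r0+j+1) (by omega)
    unfold dact at hd
    rw [if_neg (by rw [hc1]; simp)] at hd
    have hd2 := bf_none.1 hd y hu'.2
    cases hF : F i y with
    | none => rfl
    | some v =>
      exfalso
      have hv := canc_false hc2 hk hF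
      rw [hu'.1] at hv
      rw [if_pos ⟨by omega, by rw [hF, hv]⟩] at hd2
      simp at hd2

end run

end Pool.Agent.Helper74.NH
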