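import Pool.Agent.Helper74.NH.Q
import Pool.Agent.Helper74.NH.Core2

set_option autoImplicit false

/-! Compactness: how long strings have to be to decide a budgeted evaluation. -/

namespace Pool.Agent.Helper74.NH

lemma str_eq_pre (σ : Str) : σ = pre {j | σ.getD j false = true} σ.length := by
  refine pre_eq_of_getElem fun y hy => ?_
  change _ ↔ σ.getD y false = true
  rw [List.getD_eq_getElem?_getD, List.getElem?_eq_getElem hy]
  rfl

lemma pre_eq_ofFn (x : ℕ → Bool) (n : ℕ) :
    pre {j | x j = true} n = List.ofFn (fun i : Fin n => x i) := by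
  apply List.ext_getElem
  · simp
  · intro i h1 h2
    unfold pre
    simp

lemma pre_congr {X Y : Set ℕ} {n : ℕ} (h : ∀ j < n, (j ∈ X ↔ j ∈ Y)) : pre X n = pre Y n := by
  induction n with
  | zero => rfl
  | succ n ih =>
    classical
    rw [pre_succ, pre_succ, ih fun j hj => h j (by omega)]
    congr 2
    exact decide_eq_decide.2 (h n (by omega))

theorem compactness {q : Str → ℕ → Option (Option ℕ)}
    (mono : ∀ σ τ z o, σ <+: τ → q σ z = some o → q τ z = some o)
    (tot : ∀ (X : Set ℕ) z, ∃ n, (q (pre X n) z).isSome) (z : ℕ) :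
    ∃ n, ∀ σ : Str, σ.length = n → (q σ z).isSome := by
  let U : ℕ → Set (ℕ → Bool) := fun n =>
    {x | (q (List.ofFn (fun i : Fin n => x i)) z).isSome}
  have hU : ∀ n, IsOpen (U n) := by
    intro n
    have : U n = (fun (x : ℕ → Bool) (i : Fin n) => x i) ⁻¹'
        {y | (q (List.ofFn y) z).isSome} := rfl
    rw [this]
    exact (isOpen_discrete _).preimage (continuous_pi fun i => continuous_apply _)
  have hmem : ∀ n x, x ∈ U n ↔ (q (pre {j | x j = true} n) z).isSome := by
    intro n x
    rw [pre_eq_ofFn]
    rfl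
  have hmono : Monotone U := by
    intro n m hnm x hx
    rw [hmem] at hx ⊢
    obtain ⟨o, ho⟩ := Option.isSome_iff_exists.1 hx
    rw [mono _ _ _ _ (pre_prefix _ hnm) ho]
    rfl
  have hcov : (Set.univ : Set (ℕ → Bool)) ⊆ ⋃ n, U n := by
    intro x _
    obtain ⟨n, hn⟩ := tot {j | x j = true} z
    exact Set.mem_iUnion.2 ⟨n, (hmem n x).2 hn⟩
  obtain ⟨n, hn⟩ := isCompact_univ.elim_directed_cover U hU hcov hmono.directed_le
  refine ⟨n, fun σ hσ => ?_⟩
  have h1 := (hmem n (fun j => σ.getD j false)).1 (hn (Set.mem_univ _))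
  rw [← hσ, ← str_eq_pre] at h1
  exact h1

/-- all strings of a given length -/
def allS : ℕ → List Str
  | 0 => [[]]
  | n+1 => (allS n).map (List.cons false) ++ (allS n).map (List.cons true)

lemma mem_allS {n : ℕ} {σ : Str} : σ ∈ allS n ↔ σ.length = n := by
  induction n generalizing σ with
  | zero => simp [allS]
  | succ n ih =>
    rw [allS, List.mem_append, List.mem_map, List.mem_map]
    constructor
    · rintro (⟨τ, hτ, rfl⟩ | ⟨τ, hτ, rfl⟩)
      · rw [List.length_cons, ih.1 hτ]
      · rw [List.length_cons, ih.1 hτ]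
    · intro h
      cases σ with
      | nil => simp at h
      | cons b τ =>
        rw [List.length_cons] at h
        have := ih.2 (show τ.length = n by omega)
        cases b
        · exact Or.inl ⟨τ, this, rfl⟩
        · exact Or.inr ⟨τ, this, rfl⟩

lemma primrec_allS : Primrec allS := by
  have h1 : Primrec₂ (fun (_ : ℕ) (l : List Str) =>
      l.map (List.cons false) ++ l.map (List.cons true)) := by
    refine Primrec.list_append.comp (Primrec.list_map Primrec.snd ?_)
      (Primrec.list_map Primrec.snd ?_)
    · exact Primrec.list_cons.comp (Primrec.const false) Primrec.snd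
    · exact Primrec.list_cons.comp (Primrec.const true) Primrec.snd
  refine (Primrec.nat_rec₁ ([[]] : List Str) h1).of_eq fun n => ?_
  induction n with
  | zero => rfl
  | succ n ih => rw [allS, ← ih]

/-- all strings of length `n` have a small code and decide `z` -/
def chk (q : Str → ℕ → Option (Option ℕ)) (z m n : ℕ) : Bool :=
  !(bEx (fun j => !(decide (Encodable.encode ((allS n).getD j []) < m) &&
    (q ((allS n).getD j []) z).isSome)) (allS n).length)

lemma chk_iff {q : Str → ℕ → Option (Option ℕ)} {z m n : ℕ} : chk q z m n = true ↔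
    ∀ σ : Str, σ.length = n → Encodable.encode σ < m ∧ (q σ z).isSome := by
  unfold chk
  constructor
  · intro h σ hσ
    have h1 : ¬ (bEx (fun j => !(decide (Encodable.encode ((allS n).getD j []) < m) &&
      (q ((allS n).getD j []) z).isSome)) (allS n).length = true) := by
      simpa using h
    rw [bEx_iff] at h1
    push Not at h1
    obtain ⟨j, hj, hj2⟩ := List.mem_iff_getElem.1 (mem_allS.2 hσ)
    have h2 := h1 j hj
    rw [List.getD_eq_getElem?_getD, List.getElem?_eq_getElem hj, hj2] at h2
    have h3 : (decide (Encodable.encode σ < m) && (q σ z).isSome) = true := by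
      cases h4 : (decide (Encodable.encode σ < m) && (q σ z).isSome)
      · exact absurd (by rw [Option.getD_some, h4]; rfl) h2
      · rfl
    rw [Bool.and_eq_true, decide_eq_true_eq] at h3
    exact h3
  · intro h
    have h1 : ¬ (bEx (fun j => !(decide (Encodable.encode ((allS n).getD j []) < m) &&
      (q ((allS n).getD j []) z).isSome)) (allS n).length = true) := by
      rw [bEx_iff]
      push Not
      intro j hj
      rw [List.getD_eq_getElem?_getD, List.getElem?_eq_getElem hj]
      have := h (allS n)[j] (mem_allS.1 (List.getElem_mem _))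
      rw [Option.getD_some, this.2, decide_eq_true this.1]
      simp
    simpa using h1

/-- `m` is large enough for `i`, `x`, `T` -/
def big (q : Str → ℕ → Option (Option ℕ)) (i x T m : ℕ) : Bool :=
  (decide (x ≤ m) && decide (T ≤ m)) &&
    bEx (fun n => chk q (Nat.pair i (Nat.pair x T)) m n) (m+1)

lemma big_iff {q : Str → ℕ → Option (Option ℕ)} {i x T m : ℕ} : big q i x T m = true ↔
    x ≤ m ∧ T ≤ m ∧ ∃ n ≤ m, ∀ σ : Str, σ.length = n → Encodable.encode σ < m ∧
      (q σ (Nat.pair i (Nat.pair x T))).isSome := by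
  unfold big
  rw [Bool.and_eq_true, Bool.and_eq_true, bEx_iff]
  simp only [decide_eq_true_eq, and_assoc, Nat.lt_succ_iff, chk_iff]

lemma exists_big {q : Str → ℕ → Option (Option ℕ)}
    (mono : ∀ σ τ z o, σ <+: τ → q σ z = some o → q τ z = some o)
    (tot : ∀ (X : Set ℕ) z, ∃ n, (q (pre X n) z).isSome) (i x T : ℕ) :
    ∃ m, big q i x T m = true := by
  obtain ⟨n, hn⟩ := compactness mono tot (Nat.pair i (Nat.pair x T))
  have hK : ∃ K, ∀ σ : Str, σ.length = n → Encodable.encode σ < K := by
    have : ∀ l : List Str, ∃ K, ∀ σ ∈ l, Encodable.encode σ < K := by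
      intro l
      induction l with
      | nil => exact ⟨0, by simp⟩
      | cons a l ih =>
        obtain ⟨K, hK⟩ := ih
        refine ⟨max K (Encodable.encode a + 1), ?_⟩
        intro σ hσ
        rcases List.mem_cons.1 hσ with rfl | h
        · omega
        · have := hK σ h
          omega
    obtain ⟨K, hK⟩ := this (allS n)
    exact ⟨K, fun σ hσ => hK σ (mem_allS.2 hσ)⟩
  obtain ⟨K, hK⟩ := hK
  refine ⟨x + T + n + K, big_iff.2 ⟨by omega, by omega, n, by omega, fun σ hσ => ⟨?_, hn σ hσ⟩⟩⟩
  have := hK σ hσ
  omega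

lemma comp_chk {q : Str → ℕ → Option (Option ℕ)} (hq : Computable₂ q) {β : Type} [Primcodable β]
    {z m n : β → ℕ} (hz : Computable z) (hm : Computable m) (hn : Computable n) :
    Computable (fun b => chk q (z b) (m b) (n b)) := by
  have hall : Computable (fun b => allS (n b)) := primrec_allS.to_comp.comp hn
  have hσ : Computable (fun p : β × ℕ => (allS (n p.1)).getD p.2 []) :=
    (Primrec.list_getD ([] : Str)).to_comp.comp (comp_ctx hall) Computable.snd
  have h1 : Computable (fun p : β × ℕ =>
      decide (Encodable.encode ((allS (n p.1)).getD p.2 []) < m p.1)) :=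
    comp_lt (Computable.encode.comp hσ) (comp_ctx hm)
  have h2 : Computable (fun p : β × ℕ => (q ((allS (n p.1)).getD p.2 []) (z p.1)).isSome) :=
    Primrec.option_isSome.to_comp.comp (hq.comp hσ (comp_ctx hz))
  have h3 : Computable₂ (fun (b : β) (j : ℕ) =>
      !(decide (Encodable.encode ((allS (n b)).getD j []) < m b) &&
        (q ((allS (n b)).getD j []) (z b)).isSome)) :=
    comp_not (comp_and h1 h2)
  exact comp_not (comp_bEx h3 (Computable.list_length.comp hall))

lemma comp_big {q : Str → ℕ → Option (Option ℕ)} (hq : Computable₂ q) {β : Type} [Primcodable β]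
    {i x T m : β → ℕ} (hi : Computable i) (hx : Computable x) (hT : Computable T)
    (hm : Computable m) : Computable (fun b => big q (i b) (x b) (T b) (m b)) := by
  have h1 : Computable₂ (fun (b : β) (n : ℕ) =>
      chk q (Nat.pair (i b) (Nat.pair (x b) (T b))) (m b) n) :=
    comp_chk hq (comp_ctx (comp_npair hi (comp_npair hx hT))) (comp_ctx hm) Computable.snd
  exact comp_and (comp_and (comp_le hx hm) (comp_le hT hm))
    (comp_bEx h1 (Computable.succ.comp hm))

section

variable {φ Φ : ℕ → Set ℕ → ℕ →. ℕ} {q : Str → ℕ → Option (Option ℕ)} (hg : Good φ Φ q)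

/-- the time used by the simulation -/
noncomputable def Mx (i x T : ℕ) : ℕ := Nat.find (exists_big hg.mono hg.tot i x T)

lemma comp_Mx {β : Type} [Primcodable β] {i x T : β → ℕ} (hi : Computable i) (hx : Computable x)
    (hT : Computable T) : Computable (fun b => Mx hg (i b) (x b) (T b)) := by
  have h1 : Computable₂ (fun (b : β) (m : ℕ) => big q (i b) (x b) (T b) m) :=
    comp_big hg.comp (comp_ctx hi) (comp_ctx hx) (comp_ctx hT) Computable.snd
  exact comp_find h1 (fun b => exists_big hg.mono hg.tot (i b) (x b) (T b))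

/-- evaluation with budget, with the empty oracle -/
noncomputable def val0 (z : ℕ) : Option ℕ :=
  (q (pre ∅ (Nat.find (hg.tot ∅ z))) z).bind id

lemma val0_some {i x T v : ℕ} (h : val0 hg (Nat.pair i (Nat.pair x T)) = some v) :
    v ∈ φ i ∅ x ∧ ∃ T' ≤ T, T' ∈ Φ i ∅ x := by
  unfold val0 at h
  rw [Option.bind_eq_some_iff] at h
  obtain ⟨o, ho, h2⟩ := h
  have h3 : o = some v := h2
  rw [h3] at ho
  exact hg.yes _ _ _ _ _ _ ho

lemma val0_none {i x T : ℕ} (h : val0 hg (Nat.pair i (Nat.pair x T)) = none) :
    ∀ T' ≤ T, T' ∉ Φ i ∅ x := by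
  unfold val0 at h
  obtain ⟨o, ho⟩ := Option.isSome_iff_exists.1
    (Nat.find_spec (hg.tot ∅ (Nat.pair i (Nat.pair x T))))
  rw [ho] at h
  have h3 : o = none := h
  rw [h3] at ho
  exact hg.no _ _ _ _ _ ho

lemma pre_empty (n : ℕ) : pre ∅ n = List.replicate n false := by
  apply List.ext_getElem
  · simp
  · intro i h1 h2
    unfold pre
    simp

lemma comp_val0 : Computable (val0 hg) := by
  have h1 : Computable₂ (fun (z n : ℕ) => (q (pre ∅ n) z).isSome) := by
    have h2 : Computable (fun p : ℕ × ℕ => q (List.replicate p.2 false) p.1) :=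
      hg.comp.comp (comp_replicate Computable.snd) Computable.fst
    refine (Primrec.option_isSome.to_comp.comp h2).of_eq fun p => ?_
    change _ = (q (pre ∅ p.2) p.1).isSome
    rw [pre_empty]
  have h3 : Computable (fun z => Nat.find (hg.tot ∅ z)) := comp_find h1 (fun z => hg.tot ∅ z)
  have h4 : Computable (fun z => q (List.replicate (Nat.find (hg.tot ∅ z)) false) z) :=
    hg.comp.comp (comp_replicate h3) Computable.id
  refine (Computable.option_bind h4 (g := fun _ o => o) Computable.snd).of_eq fun z => ?_
  unfold val0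
  rw [pre_empty]
  rfl

end

end Pool.Agent.Helper74.NH
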