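import Mathlib

set_option autoImplicit false

/-!
# Relative Blum measures: definitions

Sets are subsets of `ℕ`. A functional takes an oracle `X ⊆ ℕ` and a number and gives a number or is
undefined.
-/

namespace Pool.Agent.Helper74.NH

open Classical in
/-- The characteristic function `c_A` of a set `A` of natural numbers. -/
noncomputable def chi (A : Set ℕ) (n : ℕ) : ℕ := if n ∈ A then 1 else 0

/-- The partial recursive functionals with an oracle `X ⊆ ℕ`: the least class of functionals
`(X, n) ↦ F X n` that contains the constant zero, the successor function, the two inverses of the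
pairing function and the oracle (the characteristic function of `X`), and is closed under pairing,
composition, primitive recursion and unbounded search. This is the uniform version (in the
oracle) of Mathlib's `Nat.Partrec` and `Nat.RecursiveIn`. -/
inductive PartrecFunctional : (Set ℕ → ℕ →. ℕ) → Prop
  | zero : PartrecFunctional fun _ _ => Part.some 0
  | succ : PartrecFunctional fun _ n => Part.some (n + 1)
  | left : PartrecFunctional fun _ n => Part.some n.unpair.1
  | right : PartrecFunctional fun _ n => Part.some n.unpair.2
  | oracle : PartrecFunctional fun X n => Part.some (chi X n)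
  | pair {F H : Set ℕ → ℕ →. ℕ} (hF : PartrecFunctional F) (hH : PartrecFunctional H) :
      PartrecFunctional fun X n => Nat.pair <$> F X n <*> H X n
  | comp {F H : Set ℕ → ℕ →. ℕ} (hF : PartrecFunctional F) (hH : PartrecFunctional H) :
      PartrecFunctional fun X n => H X n >>= F X
  | prec {F H : Set ℕ → ℕ →. ℕ} (hF : PartrecFunctional F) (hH : PartrecFunctional H) :
      PartrecFunctional fun X p =>
        let (a, n) := Nat.unpair p
        n.rec (F X a) fun y IH => do
          let i ← IH
          H X (Nat.pair a (Nat.pair y i))
  | rfind {F : Set ℕ → ℕ →. ℕ} (hF : PartrecFunctional F) :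
      PartrecFunctional fun X a =>
        Nat.rfind fun n => (fun m => decide (m = 0)) <$> F X (Nat.pair a n)

/-- `φ` (with `φ i X` for `φ_i^X`) is an acceptable enumeration of the partial recursive
functionals: it is itself a partial recursive functional of its index and its argument, and for
every partial recursive functional `F` of two arguments there is a total recursive function `c`
with `φ_{c(i)}^X(x) = F^X(i, x)` for all `i`, `X`, `x`. -/
structure Acceptable (φ : ℕ → Set ℕ → ℕ →. ℕ) : Prop where
  enum : PartrecFunctional fun X n => φ n.unpair.1 X n.unpair.2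
  smn : ∀ F : Set ℕ → ℕ →. ℕ, PartrecFunctional F →
    ∃ c : ℕ → ℕ, Computable c ∧ ∀ i X x, φ (c i) X x = F X (Nat.pair i x)

open Classical in
/-- `(φ, Φ)` is a relative Blum measure: `φ` is an acceptable enumeration of the partial recursive
functionals, `Φ_i^X(x)` is defined iff `φ_i^X(x)` is defined, and the predicate `Φ_i^X(x) = y` is
decidable with oracle `X`, uniformly in `i`, `x`, `y`, `X`. -/
structure RelBlum (φ Φ : ℕ → Set ℕ → ℕ →. ℕ) : Prop where
  acceptable : Acceptable φ
  dom_iff : ∀ i X x, (Φ i X x).Dom ↔ (φ i X x).Dom
  decidable : ∃ D : Set ℕ → ℕ →. ℕ, PartrecFunctional D ∧ ∀ i X x y,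
    D X (Nat.pair i (Nat.pair x y)) = Part.some (if y ∈ Φ i X x then 1 else 0)

/-- `Φ^B-Comp(A) >_ae t`: every `i` with `φ_i^B = c_A` satisfies `Φ_i^B(x) > t(x)` for all but
finitely many `x`. -/
def CompGt (φ Φ : ℕ → Set ℕ → ℕ →. ℕ) (B A : Set ℕ) (t : ℕ → ℕ) : Prop :=
  ∀ i, (∀ x, φ i B x = Part.some (chi A x)) → ∃ N, ∀ x, N ≤ x → ∃ y ∈ Φ i B x, t x < y

end Pool.Agent.Helper74.NH
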