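import Pool.Agent.Helper74.NH.Sim

set_option autoImplicit false

/-! The simulator, the function `g` and the main theorem. -/

namespace Pool.Agent.Helper74.NH

open Nat.Partrec (Code)
open Nat.Partrec.Code (evaln eval)

section sim

variable {φ Φ : ℕ → Set ℕ → ℕ →. ℕ} {q : Str → ℕ → Option (Option ℕ)} (hg : Good φ Φ q)

/-- search for a candidate that gives a value -/
noncomputable def simOut (i : ℕ) (c : Code) (x T : ℕ) : Option ℕ :=
  bf (fun k => (q (cand (lv (tW (mrun q c (Mx hg i x T))) (i+1)) k)
    (Nat.pair i (Nat.pair x T))).bind id) (Mx hg i x T)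

lemma comp_simOut {β : Type} [Primcodable β] {i : β → ℕ} {c : β → Code} {x T : β → ℕ}
    (hi : Computable i) (hc : Computable c) (hx : Computable x) (hT : Computable T) :
    Computable (fun b => simOut hg (i b) (c b) (x b) (T b)) := by
  have hM : Computable (fun b => Mx hg (i b) (x b) (T b)) := comp_Mx hg hi hx hT
  have hS : Computable (fun b => mrun q (c b) (Mx hg (i b) (x b) (T b))) :=
    comp_mrun hg.comp hc hM
  have hW : Computable (fun b => lv (tW (mrun q (c b) (Mx hg (i b) (x b) (T b)))) (i b + 1)) :=
    comp_lv (comp_tW hS) (Computable.succ.comp hi)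
  have hz : Computable (fun b => Nat.pair (i b) (Nat.pair (x b) (T b))) :=
    comp_npair hi (comp_npair hx hT)
  have hcand : Computable (fun p : β × ℕ =>
      cand (lv (tW (mrun q (c p.1) (Mx hg (i p.1) (x p.1) (T p.1)))) (i p.1 + 1)) p.2) :=
    primrec_cand.to_comp.comp (comp_ctx hW) Computable.snd
  have hq : Computable (fun p : β × ℕ =>
      q (cand (lv (tW (mrun q (c p.1) (Mx hg (i p.1) (x p.1) (T p.1)))) (i p.1 + 1)) p.2)
        (Nat.pair (i p.1) (Nat.pair (x p.1) (T p.1)))) :=
    hg.comp.comp hcand (comp_ctx hz)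
  have hb : Computable₂ (fun (b : β) (k : ℕ) =>
      (q (cand (lv (tW (mrun q (c b) (Mx hg (i b) (x b) (T b)))) (i b + 1)) k)
        (Nat.pair (i b) (Nat.pair (x b) (T b)))).bind id) :=
    Computable.option_bind hq (g := fun _ o => o) Computable.snd
  exact comp_bf hb hM

/-- the simulator, with `e` coding the program, the code and the starting point -/
noncomputable def psi (c : Code) (i x0 x : ℕ) : Part ℕ :=
  bif decide (x < x0) then eval c (2 * x) else Nat.rfindOpt (fun T => simOut hg i c x T)

/-- decoding of the parameters -/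
def dI (e : ℕ) : ℕ := e.unpair.1
/-- decoding of the parameters -/
def dC (e : ℕ) : Code := Denumerable.ofNat Code e.unpair.2.unpair.1
/-- decoding of the parameters -/
def dX (e : ℕ) : ℕ := e.unpair.2.unpair.2

lemma comp_dI : Computable dI := Computable.fst.comp Computable.unpair
lemma comp_dC : Computable dC :=
  (Computable.ofNat Code).comp (Computable.fst.comp (Computable.unpair.comp
    (Computable.snd.comp Computable.unpair)))
lemma comp_dX : Computable dX :=
  Computable.snd.comp (Computable.unpair.comp (Computable.snd.comp Computable.unpair))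

lemma partrec_psi' {β : Type} [Primcodable β] {c : β → Code} {i x0 x : β → ℕ}
    (hc : Computable c) (hi : Computable i) (h0 : Computable x0) (hx : Computable x) :
    Partrec (fun b => psi hg (c b) (i b) (x0 b) (x b)) := by
  have h1 : Computable (fun b => decide (x b < x0 b)) := comp_lt hx h0
  have h2 : Partrec (fun b => eval (c b) (2 * x b)) :=
    Nat.Partrec.Code.eval_part.comp hc (comp_two hx)
  have h3 : Computable₂ (fun (b : β) (T : ℕ) => simOut hg (i b) (c b) (x b) T) :=
    comp_simOut hg (comp_ctx hi) (comp_ctx hc) (comp_ctx hx) Computable.snd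
  have h4 : Partrec (fun b => Nat.rfindOpt (fun T => simOut hg (i b) (c b) (x b) T)) :=
    Partrec.rfindOpt h3
  exact Partrec.cond h1 h2 h4

lemma partrec_psi : Nat.Partrec (fun n =>
    psi hg (dC n.unpair.1) (dI n.unpair.1) (dX n.unpair.1) n.unpair.2) := by
  have he : Computable (fun n : ℕ => n.unpair.1) := Computable.fst.comp Computable.unpair
  have hx : Computable (fun n : ℕ => n.unpair.2) := Computable.snd.comp Computable.unpair
  exact Partrec.nat_iff.1 (partrec_psi' hg (comp_dC.comp he) (comp_dI.comp he)
    (comp_dX.comp he) hx)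

/-- the simulation has found a value within the budget `T` -/
noncomputable def found (e x T : ℕ) : Bool :=
  decide (dX e ≤ x) && (simOut hg (dI e) (dC e) x T).isSome

lemma comp_found {β : Type} [Primcodable β] {e x T : β → ℕ}
    (he : Computable e) (hx : Computable x) (hT : Computable T) :
    Computable (fun b => found hg (e b) (x b) (T b)) :=
  comp_and (comp_le (comp_dX.comp he) hx)
    (Primrec.option_isSome.to_comp.comp
      (comp_simOut hg (comp_dI.comp he) (comp_dC.comp he) hx hT))

lemma psi_dom {e x T : ℕ} (h : found hg e x T = true) :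
    (psi hg (dC e) (dI e) (dX e) x).Dom := by
  unfold found at h
  rw [Bool.and_eq_true, decide_eq_true_eq] at h
  unfold psi
  rw [decide_eq_false (by omega), cond_false, Nat.rfindOpt_dom]
  obtain ⟨v, hv⟩ := Option.isSome_iff_exists.1 h.2
  exact ⟨T, v, hv⟩

variable {cidx : ℕ → ℕ} (hcidx : ∀ e X x, φ (cidx e) X x = psi hg (dC e) (dI e) (dX e) x)
  (hdom : ∀ i X x, (Φ i X x).Dom ↔ (φ i X x).Dom)

include hcidx hdom in
lemma cost_exists (e x T : ℕ) :
    ∃ n, (!(found hg e x T) || (val0 hg (Nat.pair (cidx e) (Nat.pair x n))).isSome) = true := by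
  cases h : found hg e x T with
  | false => exact ⟨0, rfl⟩
  | true =>
    have h1 := psi_dom hg h
    rw [← hcidx e ∅ x, ← hdom] at h1
    obtain ⟨n, hn⟩ := Part.dom_iff_mem.1 h1
    refine ⟨n, ?_⟩
    cases h2 : val0 hg (Nat.pair (cidx e) (Nat.pair x n)) with
    | some v => rfl
    | none => exact absurd hn (val0_none hg h2 n le_rfl)

/-- the cost of the simulation -/
noncomputable def cost (e x T : ℕ) : ℕ := Nat.find (cost_exists hg hcidx hdom e x T)

lemma comp_cost (hc : Computable cidx) {β : Type} [Primcodable β] {e x T : β → ℕ}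
    (he : Computable e) (hx : Computable x) (hT : Computable T) :
    Computable (fun b => cost hg hcidx hdom (e b) (x b) (T b)) := by
  have h1 : Computable₂ (fun (b : β) (n : ℕ) => (!(found hg (e b) (x b) (T b)) ||
      (val0 hg (Nat.pair (cidx (e b)) (Nat.pair (x b) n))).isSome)) :=
    comp_or (comp_not (comp_ctx (comp_found hg he hx hT)))
      (Primrec.option_isSome.to_comp.comp ((comp_val0 hg).comp
        (comp_npair (comp_ctx (hc.comp he)) (comp_npair (comp_ctx hx) Computable.snd))))
  exact comp_find h1 (fun b => cost_exists hg hcidx hdom (e b) (x b) (T b))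

/-- sum of the costs of the first `n` simulations -/
noncomputable def gs (x T : ℕ) : ℕ → ℕ
  | 0 => 0
  | n+1 => gs x T n + cost hg hcidx hdom n x T

lemma comp_gs (hc : Computable cidx) {β : Type} [Primcodable β] {x T n : β → ℕ}
    (hx : Computable x) (hT : Computable T) (hn : Computable n) :
    Computable (fun b => gs hg hcidx hdom (x b) (T b) (n b)) := by
  have hstep : Computable₂ (fun (b : β) (z : ℕ × ℕ) =>
      z.2 + cost hg hcidx hdom z.1 (x b) (T b)) :=
    comp_add (Computable.snd.comp Computable.snd)
      (comp_cost hg hcidx hdom hc (Computable.fst.comp Computable.snd) (comp_ctx hx)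
        (comp_ctx hT))
  refine (Computable.nat_rec hn (Computable.const 0) hstep).of_eq fun b => ?_
  generalize n b = m
  induction m with
  | zero => rfl
  | succ m ih =>
    rw [gs, ← ih]

lemma gs_le {x T e n : ℕ} (h : e < n) :
    cost hg hcidx hdom e x T ≤ gs hg hcidx hdom x T n := by
  induction n with
  | zero => omega
  | succ n ih =>
    rw [gs]
    rcases Nat.lt_succ_iff_lt_or_eq.1 h with h1 | h1
    · have := ih h1
      omega
    · subst h1
      omega

lemma cost_spec {e x T : ℕ} (h : found hg e x T = true) :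
    ∃ T' ≤ cost hg hcidx hdom e x T, T' ∈ Φ (cidx e) ∅ x := by
  have h1 : (!(found hg e x T) || (val0 hg (Nat.pair (cidx e) (Nat.pair x
      (cost hg hcidx hdom e x T)))).isSome) = true :=
    Nat.find_spec (cost_exists hg hcidx hdom e x T)
  rw [h] at h1
  have h2 : (val0 hg (Nat.pair (cidx e) (Nat.pair x (cost hg hcidx hdom e x T)))).isSome := h1
  obtain ⟨v, hv⟩ := Option.isSome_iff_exists.1 h2
  exact (val0_some hg hv).2

/-- the function `g` -/
noncomputable def gg (x T : ℕ) : ℕ := gs hg hcidx hdom x T (x+1)

lemma comp_gg (hc : Computable cidx) : Computable₂ (gg hg hcidx hdom) :=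
  comp_gs hg hcidx hdom hc Computable.fst Computable.snd (Computable.succ.comp Computable.fst)

end sim

section simcorrect

variable {φ Φ : ℕ → Set ℕ → ℕ →. ℕ} {q : Str → ℕ → Option (Option ℕ)} (hg : Good φ Φ q)

/-- a budgeted computation that halts with oracle `B` is found -/
lemma simOut_isSome {B : Set ℕ} {i x T : ℕ} {c : Code} {n v : ℕ}
    (hW : lv (tW (mrun q c (Mx hg i x T))) (i+1) =
      pre B (lv (tW (mrun q c (Mx hg i x T))) (i+1)).length)
    (hv : q (pre B n) (Nat.pair i (Nat.pair x T)) = some (some v)) :
    (simOut hg i c x T).isSome := by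
  obtain ⟨h1, h2, d, hd, h3⟩ := big_iff.1 (Nat.find_spec (exists_big hg.mono hg.tot i x T))
  change x ≤ Mx hg i x T at h1
  change T ≤ Mx hg i x T at h2
  change d ≤ Mx hg i x T at hd
  have h3' : ∀ σ : Str, σ.length = d → Encodable.encode σ < Mx hg i x T ∧
      (q σ (Nat.pair i (Nat.pair x T))).isSome := h3
  -- consistency
  have hcon : ∀ m o, q (pre B m) (Nat.pair i (Nat.pair x T)) = some o → o = some v := by
    intro m o ho
    have e1 := hg.mono _ _ _ _ (pre_prefix B (le_max_left m n)) ho
    have e2 := hg.mono _ _ _ _ (pre_prefix B (le_max_right m n)) hv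
    rw [e1] at e2
    exact Option.some.inj e2
  -- a good candidate
  obtain ⟨k, hk, m, hm⟩ : ∃ k < Mx hg i x T, ∃ m, cand (lv (tW (mrun q c (Mx hg i x T))) (i+1)) k =
      pre B m ∧ (q (pre B m) (Nat.pair i (Nat.pair x T))).isSome := by
    have hpos := h3' (pre B d) (pre_length _ _)
    rcases Nat.le_total (lv (tW (mrun q c (Mx hg i x T))) (i+1)).length d with h4 | h4
    · refine ⟨Encodable.encode (pre B d), hpos.1, d, ?_, hpos.2⟩
      refine cand_of_decode (Encodable.encodek _) ?_
      rw [hW]
      exact pre_prefix B h4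
    · refine ⟨0, by omega, (lv (tW (mrun q c (Mx hg i x T))) (i+1)).length, ?_, ?_⟩
      · rw [← hW]
        unfold cand
        have h5 : (Encodable.decode 0 : Option Str) = some [] := by
          rw [← Encodable.encode_list_nil (α := Bool)]
          exact Encodable.encodek _
        rw [h5]
        simp only [List.take_nil]
        split
        · next h6 => exact h6
        · rfl
      · obtain ⟨o, ho⟩ := Option.isSome_iff_exists.1 hpos.2
        rw [hg.mono _ _ _ _ (pre_prefix B h4) ho]
        rfl
  obtain ⟨hm1, hm2⟩ := hm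
  obtain ⟨o, ho⟩ := Option.isSome_iff_exists.1 hm2
  have ho' := hcon m o ho
  subst ho'
  cases hs : simOut hg i c x T with
  | some w => rfl
  | none =>
    exfalso
    unfold simOut at hs
    have := bf_none.1 hs k hk
    rw [hm1, ho] at this
    simp at this

end simcorrect

/-- the main theorem -/
theorem main {φ Φ : ℕ → Set ℕ → ℕ →. ℕ} (h : RelBlum φ Φ) :
    ∃ g : ℕ → ℕ → ℕ, Computable₂ g ∧
      ∀ A : Set ℕ, ComputablePred (fun n => n ∈ A) → ∀ s : ℕ → ℕ, Computable s →
        ∃ B : Set ℕ, ComputablePred (fun n => n ∈ B) ∧ CompGt φ Φ ∅ B s ∧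
          ∀ t : ℕ → ℕ, CompGt φ Φ ∅ A (fun x => g x (t x)) → CompGt φ Φ B A t := by
  obtain ⟨q, hg⟩ := exists_good h
  obtain ⟨cidx, hcc, hcidx0⟩ := h.acceptable.smn _
    (PartrecFunctional.of_partrec (partrec_psi hg))
  have hcidx : ∀ e X x, φ (cidx e) X x = psi hg (dC e) (dI e) (dX e) x := by
    intro e X x
    rw [hcidx0]
    simp only [Nat.unpair_pair]
  refine ⟨gg hg hcidx h.dom_iff, comp_gg hg hcidx h.dom_iff hcc, ?_⟩
  intro A hA s hs
  -- the characteristic function of `A`
  have hchi : Computable (chi A) := by
    obtain ⟨hdec, hA⟩ := hA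
    have h1 : Computable (fun n => bif decide (n ∈ A) then 1 else 0) :=
      Computable.cond hA (Computable.const 1) (Computable.const 0)
    refine h1.of_eq fun n => ?_
    by_cases hn : n ∈ A <;> simp [chi, hn]
  -- the functions that are fast on the empty oracle
  let F : ℕ → ℕ → Option ℕ := fun i y => val0 hg (Nat.pair i (Nat.pair y (s y)))
  have hF : Computable (fun z : ℕ => Encodable.encode (F z.unpair.1 z.unpair.2)) := by
    have h1 : Computable (fun z : ℕ => z.unpair.1) := Computable.fst.comp Computable.unpair
    have h2 : Computable (fun z : ℕ => z.unpair.2) := Computable.snd.comp Computable.unpair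
    exact Computable.encode.comp ((comp_val0 hg).comp (comp_npair h1 (comp_npair h2 (hs.comp h2))))
  -- the code
  have hh : Computable (fun z : ℕ => bif z.bodd then
      Encodable.encode (F z.div2.unpair.1 z.div2.unpair.2) else chi A z.div2) :=
    Computable.cond Primrec.nat_bodd.to_comp (hF.comp Primrec.nat_div2.to_comp)
      (hchi.comp Primrec.nat_div2.to_comp)
  obtain ⟨c, hc⟩ := Nat.Partrec.Code.exists_code.1 (Partrec.nat_iff.1 hh)
  have hprog : IsProg c (chi A) F := by
    constructor
    · intro x
      rw [hc]
      simp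
    · intro i y
      rw [hc]
      simp
  set B := lim q (chi A) F hprog.nx with hB
  have hnx : ∀ st, tN st < hprog.nx st := hprog.nx_lt
  refine ⟨B, ?_, ?_, ?_⟩
  · -- `B` is decidable
    have hex : ∀ y, ∃ m, decide (y < (lv (tW (mrun q c m)) 0).length) = true := by
      intro y
      obtain ⟨r, hr⟩ := long (q := q) (A := chi A) (F := F) hg.mono hnx y
      obtain ⟨m, hm⟩ := mrun_hits (q := q) hprog r
      exact ⟨m, by rw [hm]; simpa using hr⟩
    have hW : Computable (fun p : ℕ × ℕ => lv (tW (mrun q c p.2)) 0) :=
      comp_lv (comp_tW (comp_mrun hg.comp (Computable.const c) Computable.snd))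
        (Computable.const 0)
    have h1 : Computable₂ (fun (y m : ℕ) => decide (y < (lv (tW (mrun q c m)) 0).length)) :=
      comp_lt Computable.fst (Computable.list_length.comp hW)
    have h2 : Computable (fun y => Nat.find (hex y)) := comp_find h1 hex
    have h3 : Computable (fun y => (lv (tW (mrun q c (Nat.find (hex y)))) 0).getD y false) :=
      (Primrec.list_getD false).to_comp.comp (comp_lv (comp_tW (comp_mrun hg.comp
        (Computable.const c) h2)) (Computable.const 0)) Computable.id
    classical
    refine ⟨inferInstance, h3.of_eq fun y => ?_⟩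
    have h4 := Nat.find_spec (hex y)
    rw [decide_eq_true_eq] at h4
    obtain ⟨r, hr, -⟩ := mrun_eq (q := q) hprog (Nat.find (hex y))
    rw [hr] at h4 ⊢
    have h5 := zero_sub (q := q) (A := chi A) (F := F) (nx := hprog.nx) r
    rw [List.getD_eq_getElem?_getD, h5, pre_getElem?, if_pos h4]
    rfl
  · -- `B` is hard
    intro i hi
    rcases hard (q := q) (A := chi A) (F := F) hg.mono hnx i with ⟨y, v, h1, h2⟩ | ⟨Y, hY⟩
    · exfalso
      have h3 := (val0_some hg h1).1
      rw [hi y, Part.mem_some_iff] at h3
      exact h2 h3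
    · refine ⟨Y, fun x hx => ?_⟩
      have h1 := val0_none hg (hY x hx)
      have h2 : (Φ i ∅ x).Dom := by
        rw [h.dom_iff, hi x]
        trivial
      obtain ⟨y, hy⟩ := Part.dom_iff_mem.1 h2
      refine ⟨y, hy, ?_⟩
      by_contra hcon
      exact h1 y (by omega) hy
  · -- `B` does not help
    intro t ht i hi
    rcases simul (q := q) (A := chi A) (F := F) hg.mono hnx i with
      ⟨x, T, v, n, h1, h2⟩ | ⟨r0, hr0⟩
    · exfalso
      have h3 := (hg.yes _ _ _ _ _ _ h1).1
      rw [hi x, Part.mem_some_iff] at h3
      exact h2 h3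
    · set x0 := tN (S q (chi A) F hprog.nx r0) with hx0
      set e := Nat.pair i (Nat.pair (Encodable.encode c) x0) with he
      have eI : dI e = i := by simp [dI, he]
      have eC : dC e = c := by simp [dC, he]
      have eX : dX e = x0 := by simp [dX, he]
      -- for large `x` the simulation is correct
      have hcor : ∀ x ≥ x0, ∀ T, lv (tW (mrun q c (Mx hg i x T))) (i+1) =
          pre B (lv (tW (mrun q c (Mx hg i x T))) (i+1)).length ∧
          ∀ v, simOut hg i c x T = some v → v = chi A x := by
        intro x hx T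
        obtain ⟨h1, h2, -⟩ := big_iff.1 (Nat.find_spec (exists_big hg.mono hg.tot i x T))
        change x ≤ Mx hg i x T at h1
        change T ≤ Mx hg i x T at h2
        obtain ⟨r, h3, h4, h5⟩ := mrun_eq (q := q) hprog (Mx hg i x T)
        have hr : r ≥ r0 := by
          by_contra hcon
          have h6 := tN_mono (q := q) (A := chi A) (F := F) hnx (show r + 1 ≤ r0 by omega)
          rw [tN_succ] at h6
          omega
        obtain ⟨h6, h7⟩ := hr0 r hr
        rw [h3]
        refine ⟨h6, fun v hv => ?_⟩
        unfold simOut at hv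
        obtain ⟨k, hk, h8, -⟩ := bf_some hv
        rw [Option.bind_eq_some_iff] at h8
        obtain ⟨o, ho, h9⟩ := h8
        have h10 : o = some v := h9
        subst h10
        rw [h3] at ho
        exact h7 k (by omega) x (by omega) T (by omega) v ho
      -- if the computation with oracle `B` is short, it is found
      have hfnd : ∀ x ≥ x0, ∀ T, (∃ T' ≤ T, T' ∈ Φ i B x) → (simOut hg i c x T).isSome := by
        rintro x hx T ⟨T', hT', h1⟩
        obtain ⟨n, hn⟩ := hg.tot B (Nat.pair i (Nat.pair x T))
        obtain ⟨o, ho⟩ := Option.isSome_iff_exists.1 hn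
        cases o with
        | none => exact absurd h1 (hg.no _ _ _ _ _ ho T' hT')
        | some v => exact simOut_isSome hg (hcor x hx T).1 ho
      -- the simulator computes `A`
      have hsim : ∀ x, φ (cidx e) ∅ x = Part.some (chi A x) := by
        intro x
        rw [hcidx, eI, eC, eX]
        unfold psi
        rcases Nat.lt_or_ge x x0 with hx | hx
        · rw [decide_eq_true hx, cond_true]
          exact hprog.hA x
        · rw [decide_eq_false (by omega), cond_false]
          have h1 : (Φ i B x).Dom := by
            rw [h.dom_iff, hi x]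
            trivial
          obtain ⟨T, hT⟩ := Part.dom_iff_mem.1 h1
          have h2 := hfnd x hx T ⟨T, le_rfl, hT⟩
          obtain ⟨v, hv⟩ := Option.isSome_iff_exists.1 h2
          have h3 : (Nat.rfindOpt (fun T => simOut hg i c x T)).Dom :=
            Nat.rfindOpt_dom.2 ⟨T, v, hv⟩
          obtain ⟨w, hw⟩ := Part.dom_iff_mem.1 h3
          obtain ⟨T', hT'⟩ := Nat.rfindOpt_spec hw
          have h4 := (hcor x hx T').2 w hT'
          rw [← h4]
          exact Part.eq_some_iff.2 hw
      obtain ⟨N, hN⟩ := ht (cidx e) hsim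
      refine ⟨max N (max x0 e), fun x hx => ?_⟩
      have hx1 : N ≤ x := le_trans (le_max_left _ _) hx
      have hx2 : x0 ≤ x := le_trans (le_trans (le_max_left _ _) (le_max_right _ _)) hx
      have hx3 : e ≤ x := le_trans (le_trans (le_max_right _ _) (le_max_right _ _)) hx
      have h1 : (Φ i B x).Dom := by
        rw [h.dom_iff, hi x]
        trivial
      obtain ⟨y, hy⟩ := Part.dom_iff_mem.1 h1
      refine ⟨y, hy, ?_⟩
      by_contra hcon
      have h2 : found hg e x (t x) = true := by
        unfold found
        rw [eI, eC, eX, Bool.and_eq_true, decide_eq_true_eq]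
        exact ⟨hx2, hfnd x hx2 (t x) ⟨y, by omega, hy⟩⟩
      obtain ⟨T', hT', h3⟩ := cost_spec hg hcidx h.dom_iff h2
      obtain ⟨z, hz, h4⟩ := hN x hx1
      have h5 := gs_le hg hcidx h.dom_iff (x := x) (T := t x) (show e < x + 1 by omega)
      have h6 : z = T' := Part.mem_unique hz h3
      change gs hg hcidx h.dom_iff x (t x) (x+1) < z at h4
      omega

end Pool.Agent.Helper74.NH
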