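import Pool.Agent.Helper74.NH.Use
import Pool.Agent.Helper74.NH.Comp

set_option autoImplicit false

/-! The verified budgeted evaluation of programs on strings, from a relative Blum measure. -/

namespace Pool.Agent.Helper74.NH

section

variable (evD evU : List Bool → ℕ → Option ℕ)

/-- is some `T' < n` the complexity? -/
def qa (σ : Str) (i x : ℕ) : ℕ → Option Bool
  | 0 => some false
  | n+1 => (qa σ i x n).bind fun b => (evD σ (Nat.pair i (Nat.pair x n))).map fun r => b || (r != 0)

/-- verified evaluation with budget -/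
def qq (σ : Str) (z : ℕ) : Option (Option ℕ) :=
  (qa evD σ z.unpair.1 z.unpair.2.unpair.1 (z.unpair.2.unpair.2 + 1)).bind fun b =>
    bif b then (evU σ (Nat.pair z.unpair.1 z.unpair.2.unpair.1)).map some else some none

variable {evD evU}

lemma qa_mono (mD : ∀ σ τ x y, σ <+: τ → evD σ x = some y → evD τ x = some y)
    {σ τ : Str} (h : σ <+: τ) {i x n : ℕ} {b : Bool} (hb : qa evD σ i x n = some b) :
    qa evD τ i x n = some b := by
  induction n generalizing b with
  | zero => exact hb
  | succ n ih =>
    rw [qa, Option.bind_eq_some_iff] at hb ⊢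
    obtain ⟨c, hc, h1⟩ := hb
    rw [Option.map_eq_some_iff] at h1
    obtain ⟨r, hr, h2⟩ := h1
    exact ⟨c, ih hc, by rw [mD _ _ _ _ h hr]; simp [h2]⟩

lemma qq_mono (mD : ∀ σ τ x y, σ <+: τ → evD σ x = some y → evD τ x = some y)
    (mU : ∀ σ τ x y, σ <+: τ → evU σ x = some y → evU τ x = some y)
    (σ τ : Str) (z : ℕ) (o : Option ℕ) (h : σ <+: τ) (hb : qq evD evU σ z = some o) :
    qq evD evU τ z = some o := by
  unfold qq at hb ⊢
  rw [Option.bind_eq_some_iff] at hb ⊢
  obtain ⟨b, hc, h1⟩ := hb
  refine ⟨b, qa_mono mD h hc, ?_⟩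
  cases b with
  | false => exact h1
  | true =>
    simp only [cond_true] at h1 ⊢
    rw [Option.map_eq_some_iff] at h1 ⊢
    obtain ⟨v, hv, h2⟩ := h1
    exact ⟨v, mU _ _ _ _ h hv, h2⟩

lemma qa_comp (cD : Computable₂ evD) {β : Type} [Primcodable β] {σ : β → Str} {i x n : β → ℕ}
    (hσ : Computable σ) (hi : Computable i) (hx : Computable x) (hn : Computable n) :
    Computable (fun b => qa evD (σ b) (i b) (x b) (n b)) := by
  have hstep : Computable₂ (fun (b : β) (z : ℕ × Option Bool) =>
      z.2.bind fun c => (evD (σ b) (Nat.pair (i b) (Nat.pair (x b) z.1))).map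
        fun r => c || (r != 0)) := by
    have h1 : Computable (fun w : β × (ℕ × Option Bool) => w.2.2) := Computable.snd.comp Computable.snd
    refine Computable.option_bind h1 ?_
    have h2 : Computable (fun p : (β × (ℕ × Option Bool)) × Bool =>
        evD (σ p.1.1) (Nat.pair (i p.1.1) (Nat.pair (x p.1.1) p.1.2.1))) := by
      refine cD.comp (comp_ctx (comp_ctx hσ)) (comp_npair (comp_ctx (comp_ctx hi))
        (comp_npair (comp_ctx (comp_ctx hx)) ?_))
      exact Computable.fst.comp (Computable.snd.comp Computable.fst)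
    refine Computable.option_map h2 ?_
    have h3 : Computable (fun p : ((β × (ℕ × Option Bool)) × Bool) × ℕ => p.1.2 || !decide (p.2 = 0)) :=
      comp_or (Computable.snd.comp Computable.fst) (comp_not (comp_eq Computable.snd
        (Computable.const 0)))
    refine h3.of_eq fun p => ?_
    simp only [bne, BEq.beq]
  refine (Computable.nat_rec hn (Computable.const (some false)) hstep).of_eq fun b => ?_
  generalize n b = m
  induction m with
  | zero => rfl
  | succ m ih =>
    rw [qa, ← ih]

lemma qq_comp' (cD : Computable₂ evD) (cU : Computable₂ evU) {β : Type} [Primcodable β]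
    {σ : β → Str} {i x T : β → ℕ}
    (hσ : Computable σ) (hi : Computable i) (hx : Computable x) (hT : Computable T) :
    Computable (fun p => (qa evD (σ p) (i p) (x p) (T p + 1)).bind fun b =>
      (bif b then (evU (σ p) (Nat.pair (i p) (x p))).map some else some none :
        Option (Option ℕ))) := by
  have h1 : Computable (fun p => qa evD (σ p) (i p) (x p) (T p + 1)) :=
    qa_comp cD hσ hi hx (Computable.succ.comp hT)
  have h2 : Computable (fun p : β × Bool => evU (σ p.1) (Nat.pair (i p.1) (x p.1))) :=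
    cU.comp (comp_ctx hσ) (comp_npair (comp_ctx hi) (comp_ctx hx))
  have h3 : Computable (fun p : β × Bool =>
      (evU (σ p.1) (Nat.pair (i p.1) (x p.1))).map (some : ℕ → Option ℕ)) :=
    Computable.option_map h2 (Computable.option_some.comp Computable.snd)
  have h4 : Computable₂ (fun (p : β) (b : Bool) =>
      (bif b then (evU (σ p) (Nat.pair (i p) (x p))).map
        (some : ℕ → Option ℕ) else some none : Option (Option ℕ))) :=
    Computable.cond Computable.snd h3 (Computable.const (some none))
  exact Computable.option_bind h1 h4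

lemma qq_comp (cD : Computable₂ evD) (cU : Computable₂ evU) : Computable₂ (qq evD evU) := by
  have hi : Computable (fun p : Str × ℕ => p.2.unpair.1) :=
    Computable.fst.comp (Computable.unpair.comp Computable.snd)
  have hr : Computable (fun p : Str × ℕ => p.2.unpair.2) :=
    Computable.snd.comp (Computable.unpair.comp Computable.snd)
  have hx : Computable (fun p : Str × ℕ => p.2.unpair.2.unpair.1) :=
    Computable.fst.comp (Computable.unpair.comp hr)
  have hT : Computable (fun p : Str × ℕ => p.2.unpair.2.unpair.2) :=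
    Computable.snd.comp (Computable.unpair.comp hr)
  exact qq_comp' cD cU Computable.fst hi hx hT

end

/-- verified budgeted evaluation -/
structure Good (φ Φ : ℕ → Set ℕ → ℕ →. ℕ) (q : Str → ℕ → Option (Option ℕ)) : Prop where
  comp : Computable₂ q
  mono : ∀ σ τ z o, σ <+: τ → q σ z = some o → q τ z = some o
  tot : ∀ (X : Set ℕ) z, ∃ n, (q (pre X n) z).isSome
  yes : ∀ (X : Set ℕ) n i x T v, q (pre X n) (Nat.pair i (Nat.pair x T)) = some (some v) →
    v ∈ φ i X x ∧ ∃ T' ≤ T, T' ∈ Φ i X x
  no : ∀ (X : Set ℕ) n i x T, q (pre X n) (Nat.pair i (Nat.pair x T)) = some none →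
    ∀ T' ≤ T, T' ∉ Φ i X x

theorem exists_good {φ Φ : ℕ → Set ℕ → ℕ →. ℕ} (h : RelBlum φ Φ) : ∃ q, Good φ Φ q := by
  obtain ⟨D, hD, hD2⟩ := h.decidable
  obtain ⟨evD, cD, mD, sD⟩ := use_principle D hD
  obtain ⟨evU, cU, mU, sU⟩ := use_principle _ h.acceptable.enum
  have hDs : ∀ X i x y n r, evD (pre X n) (Nat.pair i (Nat.pair x y)) = some r →
      (r ≠ 0 ↔ y ∈ Φ i X x) := by
    intro X i x y n r hr
    have h1 : r ∈ D X (Nat.pair i (Nat.pair x y)) := (sD _ _ _).2 ⟨n, hr⟩
    rw [hD2, Part.mem_some_iff] at h1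
    rw [h1]
    split
    · next h2 => simp [h2]
    · next h2 => simp [h2]
  have hqa : ∀ X i x n m b, qa evD (pre X n) i x m = some b →
      (b = true ↔ ∃ T' < m, T' ∈ Φ i X x) := by
    intro X i x n m
    induction m with
    | zero =>
      intro b hb
      have : b = false := (Option.some.inj hb).symm
      subst this
      simp
    | succ m ih =>
      intro b hb
      rw [qa, Option.bind_eq_some_iff] at hb
      obtain ⟨c, hc, h1⟩ := hb
      rw [Option.map_eq_some_iff] at h1
      obtain ⟨r, hr, h2⟩ := h1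
      have h3 := ih c hc
      have h4 := hDs X i x m n r hr
      rw [← h2, Bool.or_eq_true, h3]
      simp only [bne_iff_ne]
      rw [h4]
      constructor
      · rintro (⟨T', hT, h5⟩ | h5)
        · exact ⟨T', by omega, h5⟩
        · exact ⟨m, by omega, h5⟩
      · rintro ⟨T', hT, h5⟩
        rcases Nat.lt_succ_iff_lt_or_eq.1 hT with h6 | h6
        · exact Or.inl ⟨T', h6, h5⟩
        · exact Or.inr (h6 ▸ h5)
  have hqat : ∀ X i x m, ∃ n, (qa evD (pre X n) i x m).isSome := by
    intro X i x m
    induction m with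
    | zero => exact ⟨0, rfl⟩
    | succ m ih =>
      obtain ⟨n, hn⟩ := ih
      obtain ⟨b, hb⟩ := Option.isSome_iff_exists.1 hn
      obtain ⟨r, h1⟩ : ∃ r, r ∈ D X (Nat.pair i (Nat.pair x m)) := by
        rw [hD2]
        exact ⟨_, Part.mem_some _⟩
      obtain ⟨n', hn'⟩ := (sD _ _ _).1 h1
      refine ⟨max n n', ?_⟩
      rw [qa, qa_mono mD (pre_prefix X (le_max_left n n')) hb,
        mD _ _ _ _ (pre_prefix X (le_max_right n n')) hn']
      rfl
  refine ⟨qq evD evU, qq_comp cD cU, qq_mono mD mU, ?_, ?_, ?_⟩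
  · intro X z
    obtain ⟨n, hn⟩ := hqat X z.unpair.1 z.unpair.2.unpair.1 (z.unpair.2.unpair.2 + 1)
    obtain ⟨b, hb⟩ := Option.isSome_iff_exists.1 hn
    cases b with
    | false =>
      refine ⟨n, ?_⟩
      unfold qq
      rw [hb]
      rfl
    | true =>
      obtain ⟨T', -, hT'⟩ := (hqa _ _ _ _ _ _ hb).1 rfl
      have h1 : (φ z.unpair.1 X z.unpair.2.unpair.1).Dom :=
        (h.dom_iff _ _ _).1 (Part.dom_iff_mem.2 ⟨T', hT'⟩)
      obtain ⟨v, hv⟩ := Part.dom_iff_mem.1 h1
      have h2 := (sU X (Nat.pair z.unpair.1 z.unpair.2.unpair.1) v).1 (by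
        rw [Nat.unpair_pair]; exact hv)
      obtain ⟨n', hn'⟩ := h2
      refine ⟨max n n', ?_⟩
      unfold qq
      rw [qa_mono mD (pre_prefix X (le_max_left n n')) hb,
        mU _ _ _ _ (pre_prefix X (le_max_right n n')) hn']
      rfl
  · intro X n i x T v hv
    unfold qq at hv
    simp only [Nat.unpair_pair] at hv
    rw [Option.bind_eq_some_iff] at hv
    obtain ⟨b, hb, h1⟩ := hv
    cases b with
    | false => simp at h1
    | true =>
      simp only [cond_true] at h1
      rw [Option.map_eq_some_iff] at h1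
      obtain ⟨w, hw, h2⟩ := h1
      have h3 : w = v := Option.some.inj h2
      subst h3
      constructor
      · have := (sU X (Nat.pair i x) w).2 ⟨n, hw⟩
        rw [Nat.unpair_pair] at this
        exact this
      · obtain ⟨T', hT', h4⟩ := (hqa _ _ _ _ _ _ hb).1 rfl
        exact ⟨T', by omega, h4⟩
  · intro X n i x T hv T' hT' hmem
    unfold qq at hv
    simp only [Nat.unpair_pair] at hv
    rw [Option.bind_eq_some_iff] at hv
    obtain ⟨b, hb, h1⟩ := hv
    cases b with
    | true =>
      simp only [cond_true] at h1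
      rw [Option.map_eq_some_iff] at h1
      obtain ⟨w, hw, h2⟩ := h1
      simp at h2
    | false =>
      have := (hqa _ _ _ _ _ _ hb).2 ⟨T', by omega, hmem⟩
      simp at this

end Pool.Agent.Helper74.NH
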