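import Pool.Agent.Helper74.NH.Cpt

set_option autoImplicit false

/-! Running the construction inside a simulation. -/

namespace Pool.Agent.Helper74.NH

open Nat.Partrec (Code)
open Nat.Partrec.Code (evaln eval)

section congr

variable {q : Str → ℕ → Option (Option ℕ)} {A A' : ℕ → ℕ} {F F' : ℕ → ℕ → Option ℕ}

lemma bEx_congr {p p' : ℕ → Bool} {n : ℕ} (h : ∀ k < n, p k = p' k) : bEx p n = bEx p' n := by
  induction n with
  | zero => rfl
  | succ n ih => rw [bEx, bEx, ih fun k hk => h k (by omega), h n (by omega)]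

lemma bf_congr {β : Type} {p p' : ℕ → Option β} {n : ℕ} (h : ∀ k < n, p k = p' k) :
    bf p n = bf p' n := by
  induction n with
  | zero => rfl
  | succ n ih => rw [bf, bf, ih fun k hk => h k (by omega), h n (by omega)]

lemma bad_congr {i N : ℕ} {σ : Str} (h : ∀ x < N, A x = A' x) :
    bad q A i N σ = bad q A' i N σ := by
  unfold bad
  refine bEx_congr fun x hx => bEx_congr fun T _ => ?_
  unfold wr
  rw [h x hx]

lemma kact_congr {st : St} {i : ℕ} (h : ∀ x < tN st, A x = A' x) :
    kact q A st i = kact q A' st i := by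
  unfold kact kfind
  rw [bad_congr (q := q) (i := i) h]
  have : ∀ σ, bad q A i (tN st) σ = bad q A' i (tN st) σ := fun σ => bad_congr h
  simp only [this]

lemma canc_congr {i : ℕ} {u : Str} (h : ∀ y < u.length, F i y = F' i y) :
    canc F i u = canc F' i u := by
  unfold canc
  refine bEx_congr fun y hy => ?_
  rw [h y hy]

lemma dact_congr {st : St} {i : ℕ} (hI : Inv st)
    (h : ∀ y < (tW st).2.length, F i y = F' i y) : dact F st i = dact F' st i := by
  unfold dact
  have h1 := (hI.n2 (i+1)).length_le
  have h2 := (hI.n2 (i+2)).length_le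
  rw [canc_congr fun y hy => h y (by omega)]
  congr 1
  refine bf_congr fun y hy => ?_
  rw [h y (by omega)]

lemma bstep_congr {st : St} {M : ℕ} (hI : Inv st) (hA : ∀ x < tN st, A x = A' x)
    (hF : ∀ i < tE st, ∀ y < (tW st).2.length, F i y = F' i y) :
    bstep q A F M st = bstep q A' F' M st := by
  unfold bstep
  have : bf (fun i => (act q A F st i).map (fun σ => (i, σ))) (tE st) =
      bf (fun i => (act q A' F' st i).map (fun σ => (i, σ))) (tE st) := by
    refine bf_congr fun i hi => ?_
    unfold act
    rw [kact_congr hA, dact_congr hI (hF i hi)]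
  rw [this]

end congr

/-- the part of `A` that is known at time `m` -/
def pA (c : Code) (m x : ℕ) : ℕ := (evaln m c (2*x)).getD 0

/-- the part of `F` that is known at time `m` -/
def pF (c : Code) (m i y : ℕ) : Option ℕ :=
  (evaln m c (2 * Nat.pair i y + 1)).bind fun v => if v = 0 then none else some (v - 1)

/-- what has to be known for one step -/
def bnd (st : St) : ℕ := 2 * tN st + 2 * Nat.pair (tE st) (tW st).2.length + 2

/-- everything needed is known at time `m` -/
def ready (c : Code) (m : ℕ) (st : St) : Bool := !(bEx (fun z => (evaln m c z).isNone) (bnd st))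

lemma ready_iff {c : Code} {m : ℕ} {st : St} :
    ready c m st = true ↔ ∀ z < bnd st, (evaln m c z).isSome := by
  have h : ready c m st = true ↔ ¬ (bEx (fun z => (evaln m c z).isNone) (bnd st) = true) := by
    unfold ready
    simp
  rw [h, bEx_iff]
  push Not
  constructor
  · intro h1 z hz
    have := h1 z hz
    cases h2 : evaln m c z
    · rw [h2] at this; simp at this
    · rfl
  · intro h1 z hz
    have := h1 z hz
    cases h2 : evaln m c z
    · rw [h2] at this; simp at this
    · simp

/-- the construction, run from a code -/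
def mrun (q : Str → ℕ → Option (Option ℕ)) (c : Code) : ℕ → St
  | 0 => ((0, 0, 0), (([], []), ([], [])))
  | m+1 => if ready c (m+1) (mrun q c m) = true then
      bstep q (pA c (m+1)) (pF c (m+1)) (m+1) (mrun q c m) else mrun q c m

section agree

variable {q : Str → ℕ → Option (Option ℕ)} {A : ℕ → ℕ} {F : ℕ → ℕ → Option ℕ} {c : Code}

/-- `c` is a program for `A` and `F` -/
structure IsProg (c : Code) (A : ℕ → ℕ) (F : ℕ → ℕ → Option ℕ) : Prop where
  hA : ∀ x, eval c (2*x) = Part.some (A x)
  hF : ∀ i y, eval c (2 * Nat.pair i y + 1) = Part.some (Encodable.encode (F i y))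

lemma IsProg.tot (h : IsProg c A F) (z : ℕ) : ∃ v, v ∈ eval c z := by
  rcases Nat.even_or_odd' z with ⟨k, rfl | rfl⟩
  · exact ⟨_, by rw [h.hA]; exact Part.mem_some _⟩
  · have := h.hF k.unpair.1 k.unpair.2
    rw [Nat.pair_unpair] at this
    exact ⟨_, by rw [this]; exact Part.mem_some _⟩

lemma IsProg.known (h : IsProg c A F) (n : ℕ) : ∃ m, ∀ m' ≥ m, ∀ z < n, (evaln m' c z).isSome := by
  induction n with
  | zero => exact ⟨0, fun _ _ z hz => absurd hz (by omega)⟩
  | succ n ih =>
    obtain ⟨m, hm⟩ := ih
    obtain ⟨v, hv⟩ := h.tot n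
    obtain ⟨k, hk⟩ := Nat.Partrec.Code.evaln_complete.1 hv
    refine ⟨max m k, fun m' hm' z hz => ?_⟩
    rcases Nat.lt_succ_iff_lt_or_eq.1 hz with h1 | h1
    · exact hm m' (le_trans (le_max_left _ _) hm') z h1
    · subst h1
      have := Nat.Partrec.Code.evaln_mono (le_trans (le_max_right _ _) hm') hk
      rw [Option.mem_def] at this
      rw [this]
      rfl

lemma IsProg.exists_next (h : IsProg c A F) (st : St) :
    ∃ m, tN st < m ∧ ready c m st = true := by
  obtain ⟨m, hm⟩ := h.known (bnd st)
  refine ⟨max m (tN st + 1), by omega, ready_iff.2 fun z hz => hm _ (le_max_left _ _) z hz⟩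

/-- the time of the next step -/
noncomputable def IsProg.nx (h : IsProg c A F) (st : St) : ℕ := Nat.find (h.exists_next st)

lemma IsProg.nx_lt (h : IsProg c A F) (st : St) : tN st < h.nx st :=
  (Nat.find_spec (h.exists_next st)).1

lemma IsProg.nx_ready (h : IsProg c A F) (st : St) : ready c (h.nx st) st = true :=
  (Nat.find_spec (h.exists_next st)).2

lemma IsProg.nx_min (h : IsProg c A F) {st : St} {m : ℕ} (h1 : tN st < m) (h2 : m < h.nx st) :
    ready c m st = false := by
  have := Nat.find_min (h.exists_next st) h2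
  cases h3 : ready c m st
  · rfl
  · exact absurd ⟨h1, h3⟩ this

lemma IsProg.pA_eq (h : IsProg c A F) {m : ℕ} {st : St} (hr : ready c m st = true) {x : ℕ}
    (hx : x < tN st) : pA c m x = A x := by
  have h1 := ready_iff.1 hr (2*x) (by unfold bnd; omega)
  obtain ⟨v, hv⟩ := Option.isSome_iff_exists.1 h1
  have h2 := Nat.Partrec.Code.evaln_sound (Option.mem_def.2 hv)
  rw [h.hA, Part.mem_some_iff] at h2
  unfold pA
  rw [hv, h2]
  rfl

lemma IsProg.pF_eq (h : IsProg c A F) {m : ℕ} {st : St} (hr : ready c m st = true) {i y : ℕ}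
    (hi : i < tE st) (hy : y < (tW st).2.length) : pF c m i y = F i y := by
  have hp : Nat.pair i y < Nat.pair (tE st) (tW st).2.length :=
    lt_trans (Nat.pair_lt_pair_left _ hi) (Nat.pair_lt_pair_right _ hy)
  have h1 := ready_iff.1 hr (2 * Nat.pair i y + 1) (by unfold bnd; omega)
  obtain ⟨v, hv⟩ := Option.isSome_iff_exists.1 h1
  have h2 := Nat.Partrec.Code.evaln_sound (Option.mem_def.2 hv)
  rw [h.hF, Part.mem_some_iff] at h2
  unfold pF
  rw [hv, h2]
  cases F i y <;> simp

lemma mrun_step (h : IsProg c A F) {r m : ℕ} (h1 : mrun q c m = S q A F h.nx r)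
    (h2 : tN (S q A F h.nx r) ≤ m) (h3 : m < h.nx (S q A F h.nx r)) :
    (m + 1 < h.nx (S q A F h.nx r) ∧ mrun q c (m+1) = S q A F h.nx r) ∨
    (m + 1 = h.nx (S q A F h.nx r) ∧ mrun q c (m+1) = S q A F h.nx (r+1)) := by
  rcases Nat.lt_or_ge (m+1) (h.nx (S q A F h.nx r)) with h4 | h4
  · left
    refine ⟨h4, ?_⟩
    have h5 := h.nx_min (st := S q A F h.nx r) (m := m+1) (by omega) h4
    rw [mrun, h1, if_neg (by rw [h5]; simp)]
  · right
    have h4 : m + 1 = h.nx (S q A F h.nx r) := by omega
    refine ⟨h4, ?_⟩
    have h5 := h.nx_ready (S q A F h.nx r)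
    rw [← h4] at h5
    rw [mrun, h1, if_pos h5]
    change _ = bstep q A F (h.nx (S q A F h.nx r)) (S q A F h.nx r)
    rw [← h4]
    exact bstep_congr (S_inv r) (fun x hx => h.pA_eq h5 hx) (fun i hi y hy => h.pF_eq h5 hi hy)

theorem mrun_eq (h : IsProg c A F) (m : ℕ) : ∃ r, mrun q c m = S q A F h.nx r ∧
    tN (S q A F h.nx r) ≤ m ∧ m < h.nx (S q A F h.nx r) := by
  induction m with
  | zero => exact ⟨0, rfl, Nat.le_refl 0, h.nx_lt (S q A F h.nx 0)⟩
  | succ m ih =>
    obtain ⟨r, h1, h2, h3⟩ := ih
    rcases mrun_step h h1 h2 h3 with ⟨h4, h5⟩ | ⟨h4, h5⟩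
    · exact ⟨r, h5, by omega, h4⟩
    · refine ⟨r+1, h5, ?_, ?_⟩
      · rw [tN_succ]; omega
      · have := h.nx_lt (S q A F h.nx (r+1))
        rw [tN_succ] at this
        omega

theorem mrun_hits (h : IsProg c A F) (r : ℕ) : ∃ m, mrun q c m = S q A F h.nx r := by
  obtain ⟨r', h1, h2, h3⟩ := mrun_eq (q := q) h (tN (S q A F h.nx r))
  have h4 : r' = r := by
    rcases lt_trichotomy r' r with h4 | h4 | h4
    · exfalso
      have := tN_mono (q := q) (A := A) (F := F) h.nx_lt (show r' + 1 ≤ r by omega)
      rw [tN_succ] at this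
      omega
    · exact h4
    · exfalso
      have := tN_mono (q := q) (A := A) (F := F) h.nx_lt (show r + 1 ≤ r' by omega)
      rw [tN_succ] at this
      have := h.nx_lt (S q A F h.nx r)
      omega
  exact ⟨_, by rw [h1, h4]⟩

end agree

section comp

variable {β : Type} [Primcodable β]

lemma comp_evaln {m : β → ℕ} {c : β → Code} {z : β → ℕ} (hm : Computable m) (hc : Computable c)
    (hz : Computable z) : Computable (fun b => evaln (m b) (c b) (z b)) :=
  Nat.Partrec.Code.primrec_evaln.to_comp.comp ((hm.pair hc).pair hz)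

lemma comp_two {z : β → ℕ} (hz : Computable z) : Computable (fun b => 2 * z b) :=
  (Primrec.nat_double.to_comp).comp hz

lemma comp_bnd {s : β → St} (hs : Computable s) : Computable (fun b => bnd (s b)) := by
  unfold bnd
  refine comp_add (comp_add (comp_two (comp_tN hs)) (comp_two (comp_npair (comp_tE hs) ?_)))
    (Computable.const 2)
  exact Computable.list_length.comp (Computable.snd.comp (comp_tW hs))

lemma comp_ready {m : β → ℕ} {c : β → Code} {s : β → St} (hm : Computable m) (hc : Computable c)
    (hs : Computable s) : Computable (fun b => ready (c b) (m b) (s b)) := by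
  unfold ready
  refine comp_not (comp_bEx ?_ (comp_bnd hs))
  have h1 : Computable (fun p : β × ℕ => evaln (m p.1) (c p.1) p.2) :=
    comp_evaln (comp_ctx hm) (comp_ctx hc) Computable.snd
  have h2 : Computable (fun p : β × ℕ => !((evaln (m p.1) (c p.1) p.2).isSome)) :=
    comp_not (Primrec.option_isSome.to_comp.comp h1)
  refine h2.of_eq fun p => ?_
  change _ = (evaln (m p.1) (c p.1) p.2).isNone
  cases evaln (m p.1) (c p.1) p.2 <;> rfl

lemma comp_pA {m : β → ℕ} {c : β → Code} (hm : Computable m) (hc : Computable c) :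
    Computable₂ (fun (b : β) (x : ℕ) => pA (c b) (m b) x) := by
  exact Computable.option_getD (comp_evaln (comp_ctx hm) (comp_ctx hc)
    (comp_two Computable.snd)) (Computable.const 0)

lemma comp_dec {o : β → Option ℕ} (ho : Computable o) :
    Computable (fun b => (o b).bind fun v => if v = 0 then none else some (v - 1)) := by
  have h2 : Computable₂ (fun (_ : β) (v : ℕ) => if v = 0 then none else some (v - 1)) := by
    have h3 : Primrec (fun v : ℕ => if v = 0 then none else some (v - 1)) :=
      Primrec.ite (Primrec.eq.comp Primrec.id (Primrec.const 0)) (Primrec.const none)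
        (Primrec.option_some.comp (Primrec.nat_sub.comp Primrec.id (Primrec.const 1)))
    exact h3.to_comp.comp Computable.snd
  exact Computable.option_bind ho h2

lemma comp_pF' {m : β → ℕ} {c : β → Code} {i y : β → ℕ} (hm : Computable m) (hc : Computable c)
    (hi : Computable i) (hy : Computable y) :
    Computable (fun b => pF (c b) (m b) (i b) (y b)) := by
  have h1 : Computable (fun b => Nat.pair (i b) (y b)) := comp_npair hi hy
  have h2 : Computable (fun b => 2 * Nat.pair (i b) (y b)) := comp_two h1
  have h3 : Computable (fun b => 2 * Nat.pair (i b) (y b) + 1) :=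
    comp_add h2 (Computable.const 1)
  have h4 := comp_evaln hm hc h3
  unfold pF
  exact comp_dec h4

lemma comp_pF {m : β → ℕ} {c : β → Code} (hm : Computable m) (hc : Computable c) :
    Computable (fun p : β × (ℕ × ℕ) => pF (c p.1) (m p.1) p.2.1 p.2.2) :=
  comp_pF' (comp_ctx hm) (comp_ctx hc) (Computable.fst.comp Computable.snd)
    (Computable.snd.comp Computable.snd)

/-- one step of `mrun` -/
def mstep (q : Str → ℕ → Option (Option ℕ)) (c : Code) (m : ℕ) (s : St) : St :=
  if ready c m s = true then bstep q (pA c m) (pF c m) m s else s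

lemma comp_mstep {q : Str → ℕ → Option (Option ℕ)} (hq : Computable₂ q) {c : β → Code} {m : β → ℕ}
    {s : β → St} (hc : Computable c) (hm : Computable m) (hs : Computable s) :
    Computable (fun b => mstep q (c b) (m b) (s b)) := by
  have h1 : Computable (fun b => ready (c b) (m b) (s b)) := comp_ready hm hc hs
  have h2 : Computable (fun b => bstep q (pA (c b) (m b)) (pF (c b) (m b)) (m b) (s b)) :=
    comp_bstep hq (fA := fun b => pA (c b) (m b)) (comp_pA hm hc)
      (fF := fun b => pF (c b) (m b)) (comp_pF hm hc) hm hs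
  exact comp_ite h1 h2 hs (fun _ => Iff.rfl)

theorem comp_mrun {q : Str → ℕ → Option (Option ℕ)} (hq : Computable₂ q) {c : β → Code} {m : β → ℕ}
    (hc : Computable c) (hm : Computable m) : Computable (fun b => mrun q (c b) (m b)) := by
  have hstep : Computable₂ (fun (b : β) (z : ℕ × St) => mstep q (c b) (z.1 + 1) z.2) :=
    comp_mstep hq (comp_ctx hc) (Computable.succ.comp (Computable.fst.comp Computable.snd))
      (Computable.snd.comp Computable.snd)
  have h0 : Computable (fun _ : β => (((0, 0, 0), (([], []), ([], []))) : St)) :=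
    Computable.const _
  refine (Computable.nat_rec hm h0 hstep).of_eq fun b => ?_
  generalize m b = k
  induction k with
  | zero => rfl
  | succ k ih =>
    rw [mrun, ← ih]
    rfl

end comp

end Pool.Agent.Helper74.NH
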